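import Mathlib

set_option autoImplicit false

/-!
# Clubs and stationary sets of a regular uncountable cardinal

Diagonal intersection, Fodor's lemma, and the splitting of a stationary set into two.
-/

open Cardinal Ordinal Set Order

universe u

namespace Pool.Agent.H7.WD

variable {κ : Cardinal.{u}}

theorem mk_Iic_lt (h : ℵ₀ ≤ κ) (a : κ.ord.ToType) : #(Iic a) < κ := by
  have := Cardinal.noMaxOrder h
  obtain ⟨b, hb⟩ := exists_gt a
  exact (mk_le_mk_of_subset fun x (hx : x ≤ a) => hx.trans_lt hb).trans_lt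
    (mk_Iio_toType_ord_lt b)

theorem exists_bound (S : Set κ.ord.ToType) (hS : #S < κ.ord.cof) : ∃ b, ∀ s ∈ S, s < b := by
  have h : ¬ IsCofinal S := fun h => by
    have h1 := Order.cof_le h
    rw [Ordinal.cof_toType] at h1
    exact absurd h1 (not_le.2 hS)
  rw [IsCofinal] at h
  push Not at h
  exact h

theorem exists_bound_fun {K : Type u} (f : K → κ.ord.ToType) (hK : #K < κ.ord.cof) :
    ∃ b, ∀ k, f k < b := by
  obtain ⟨b, hb⟩ := exists_bound (range f) (mk_range_le.trans_lt hK)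
  exact ⟨b, fun k => hb _ ⟨k, rfl⟩⟩

theorem cof_ne (hr : κ.IsRegular) (h0 : ℵ₀ < κ) : Order.cof κ.ord.ToType ≠ ℵ₀ := by
  rw [Ordinal.cof_toType, hr.cof_ord]
  exact h0.ne'

/-- the closure points of a function form a club -/
theorem closure_club (hr : κ.IsRegular) (h0 : ℵ₀ < κ) (h : κ.ord.ToType → κ.ord.ToType) :
    IsClub {x : κ.ord.ToType | (∃ y, y < x) ∧ ∀ b < x, h b < x} := by
  refine ⟨?_, ?_⟩
  · intro t ht hne _ x hx
    refine ⟨?_, ?_⟩
    · obtain ⟨z, hz⟩ := hne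
      obtain ⟨y, hy⟩ := (ht hz).1
      exact ⟨y, hy.trans_le (hx.1 hz)⟩
    · intro b hb
      obtain ⟨z, hz, hbz⟩ := (lt_isLUB_iff hx).1 hb
      exact ((ht hz).2 b hbz).trans_le (hx.1 hz)
  · intro x0
    have hno := Cardinal.noMaxOrder hr.1
    have hg : ∀ x : κ.ord.ToType, ∃ y, x < y ∧ ∀ b ≤ x, h b < y := by
      intro x
      obtain ⟨y, hy⟩ := exists_bound_fun (fun b : Iic x => h b.1)
        (by rw [hr.cof_ord]; exact mk_Iic_lt hr.1 x)
      obtain ⟨z, hz⟩ := exists_gt (max x y)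
      exact ⟨z, (le_max_left _ _).trans_lt hz, fun b hb =>
        (hy ⟨b, hb⟩).trans ((le_max_right _ _).trans_lt hz)⟩
    choose g hg1 hg2 using hg
    let s : ℕ → κ.ord.ToType := fun n => g^[n] x0
    have hs1 : ∀ n, s (n + 1) = g (s n) := fun n => Function.iterate_succ_apply' g n x0
    obtain ⟨b0, hb0⟩ := exists_bound (range s) (by
      rw [hr.cof_ord]
      exact lt_of_le_of_lt (by simpa using mk_range_le_lift (f := s)) h0)
    have hne : {b : κ.ord.ToType | ∀ n, s n ≤ b}.Nonempty := ⟨b0, fun n => (hb0 _ ⟨n, rfl⟩).le⟩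
    obtain ⟨y, hy, hmin⟩ := WellFounded.has_min (wellFounded_lt (α := κ.ord.ToType)) _ hne
    have hlt : ∀ b < y, ∃ n, b < s n := by
      intro b hb
      by_contra hc
      push Not at hc
      exact hmin b hc hb
    refine ⟨y, ⟨⟨x0, ?_⟩, ?_⟩, hy 0⟩
    · have h1 := hy 1
      rw [hs1 0] at h1
      exact (hg1 _).trans_le h1
    · intro b hb
      obtain ⟨n, hn⟩ := hlt b hb
      have h1 := hy (n + 1)
      rw [hs1 n] at h1
      exact (hg2 (s n) b hn.le).trans_le h1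

/-- the diagonal intersection of clubs contains a club -/
theorem diag_club (hr : κ.IsRegular) (h0 : ℵ₀ < κ) (C : κ.ord.ToType → Set κ.ord.ToType)
    (hC : ∀ i, IsClub (C i)) :
    ∃ D, IsClub D ∧ ∀ x ∈ D, (∃ y, y < x) ∧ ∀ b < x, x ∈ C b := by
  have hno := Cardinal.noMaxOrder hr.1
  have hn : ∀ b z : κ.ord.ToType, ∃ y ∈ C b, z < y := by
    intro b z
    obtain ⟨w, hw⟩ := exists_gt z
    obtain ⟨y, hy, hwy⟩ := (hC b).isCofinal w
    exact ⟨y, hy, hw.trans_le hwy⟩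
  choose n hn1 hn2 using hn
  have hH : ∀ z : κ.ord.ToType, ∃ y, ∀ b ≤ z, n b z < y := by
    intro z
    obtain ⟨y, hy⟩ := exists_bound_fun (fun b : Iic z => n b.1 z)
      (by rw [hr.cof_ord]; exact mk_Iic_lt hr.1 z)
    exact ⟨y, fun b hb => hy ⟨b, hb⟩⟩
  choose H hH using hH
  refine ⟨_, closure_club hr h0 H, ?_⟩
  rintro x ⟨hx0, hx⟩
  refine ⟨hx0, fun b hb => ?_⟩
  refine (hC b).isLUB_mem (t := {y | ∃ z, b ≤ z ∧ z < x ∧ y = n b z}) ?_ ?_ ?_
  · rintro _ ⟨z, -, -, rfl⟩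
    exact hn1 b z
  · exact ⟨n b b, b, le_rfl, hb, rfl⟩
  · refine ⟨?_, ?_⟩
    · rintro _ ⟨z, hbz, hzx, rfl⟩
      exact ((hH z b hbz).trans (hx z hzx)).le
    · intro v hv
      by_contra hc
      have hvx : v < x := lt_of_not_ge hc
      have h1 := hv ⟨max b v, le_max_left _ _, max_lt hb hvx, rfl⟩
      exact absurd h1 (not_le.2 ((le_max_right b v).trans_lt (hn2 b (max b v))))

/-- Fodor's lemma -/
theorem fodor (hr : κ.IsRegular) (h0 : ℵ₀ < κ) {S : Set κ.ord.ToType} (hS : IsStationary S)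
    (h : κ.ord.ToType → κ.ord.ToType) (hh : ∀ a ∈ S, h a < a) :
    ∃ b, IsStationary {a | a ∈ S ∧ h a = b} := by
  by_contra hc
  push Not at hc
  have h1 : ∀ b, ∃ t, IsClub t ∧ Disjoint {a | a ∈ S ∧ h a = b} t :=
    fun b => not_isStationary_iff.1 (hc b)
  choose C hC1 hC2 using h1
  obtain ⟨D, hD, hD'⟩ := diag_club hr h0 C hC1
  obtain ⟨a, haS, haD⟩ := hS hD
  exact Set.disjoint_left.1 (hC2 (h a)) ⟨haS, rfl⟩ ((hD' a haD).2 _ (hh a haS))

theorem isClub_Ioi (hr : κ.IsRegular) (a : κ.ord.ToType) : IsClub (Ioi a) := by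
  have hno := Cardinal.noMaxOrder hr.1
  refine ⟨?_, ?_⟩
  · intro t ht hne _ x hx
    obtain ⟨z, hz⟩ := hne
    exact (ht hz : a < z).trans_le (hx.1 hz)
  · intro x
    obtain ⟨z, hz⟩ := exists_gt (max a x)
    exact ⟨z, (le_max_left _ _).trans_lt hz, ((le_max_right _ _).trans_lt hz).le⟩

theorem not_stat_Iic (hr : κ.IsRegular) (a : κ.ord.ToType) : ¬ IsStationary (Iic a) := by
  intro h
  obtain ⟨x, hx, hx'⟩ := h (isClub_Ioi hr a)
  have h1 : x ≤ a := hx
  have h2 : a < x := hx'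
  exact absurd h1 (not_le.2 h2)

theorem stat_inter_club (hr : κ.IsRegular) (h0 : ℵ₀ < κ) {S D : Set κ.ord.ToType}
    (hS : IsStationary S) (hD : IsClub D) : IsStationary (S ∩ D) := by
  intro t ht
  obtain ⟨x, hx, hx'⟩ := hS (hD.inter (cof_ne hr h0) ht)
  exact ⟨x, ⟨hx, hx'.1⟩, hx'.2⟩

/-- `x` is a limit point of `D` -/
def Lim (D : Set κ.ord.ToType) (x : κ.ord.ToType) : Prop :=
  (∃ y, y < x) ∧ ∀ y < x, ∃ z ∈ D, y < z ∧ z < x

theorem Lim.isLUB {D : Set κ.ord.ToType} {x : κ.ord.ToType} (h : Lim D x) :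
    IsLUB {z | z ∈ D ∧ z < x} x := by
  refine ⟨fun z hz => hz.2.le, fun v hv => ?_⟩
  by_contra hc
  obtain ⟨z, hz, h1, h2⟩ := h.2 v (lt_of_not_ge hc)
  exact absurd (hv ⟨hz, h2⟩) (not_le.2 h1)

theorem Lim.mem {D : Set κ.ord.ToType} (hD : IsClub D) {x : κ.ord.ToType} (h : Lim D x) :
    x ∈ D := by
  refine hD.isLUB_mem (t := {z | z ∈ D ∧ z < x}) (fun z hz => hz.1) ?_ h.isLUB
  obtain ⟨y, hy⟩ := h.1
  obtain ⟨z, hz, -, h2⟩ := h.2 y hy
  exact ⟨z, hz, h2⟩

/-- `c` is closed and unbounded in `a` and misses `T` -/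
def Good (T : Set κ.ord.ToType) (a : κ.ord.ToType) (c : Set κ.ord.ToType) : Prop :=
  (∀ z ∈ c, z < a) ∧ (∀ y < a, ∃ z ∈ c, y < z) ∧
    (∀ t ⊆ c, t.Nonempty → ∀ x, IsLUB t x → x < a → x ∈ c) ∧ ∀ z ∈ c, z ∉ T

theorem stat_good (hr : κ.IsRegular) (h0 : ℵ₀ < κ) {T : Set κ.ord.ToType} (hT : IsStationary T)
    (hlim : ∀ a ∈ T, Lim univ a) : IsStationary {a | a ∈ T ∧ ∃ c, Good T a c} := by
  have hno := Cardinal.noMaxOrder hr.1
  intro D hD
  -- a point of `T` that is a limit of `D`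
  have hn : ∀ z : κ.ord.ToType, ∃ y ∈ D, z < y := by
    intro z
    obtain ⟨w, hw⟩ := exists_gt z
    obtain ⟨y, hy, hwy⟩ := hD.isCofinal w
    exact ⟨y, hy, hw.trans_le hwy⟩
  choose n hn1 hn2 using hn
  have hex : {a | a ∈ T ∧ Lim D a}.Nonempty := by
    obtain ⟨a, haT, haE⟩ := hT (closure_club hr h0 n)
    exact ⟨a, haT, haE.1, fun y hy => ⟨n y, hn1 y, hn2 y, haE.2 y hy⟩⟩
  obtain ⟨a, ⟨haT, haL⟩, hmin⟩ := WellFounded.has_min (wellFounded_lt (α := κ.ord.ToType)) _ hex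
  refine ⟨a, ⟨haT, ?_⟩, haL.mem hD⟩
  by_cases hub : ∀ y < a, ∃ z, Lim D z ∧ y < z ∧ z < a
  · refine ⟨{z | Lim D z ∧ z < a}, fun z hz => hz.2, fun y hy => ?_, ?_, ?_⟩
    · obtain ⟨z, hz, h1, h2⟩ := hub y hy
      exact ⟨z, ⟨hz, h2⟩, h1⟩
    · intro t ht hne x hx hxa
      refine ⟨⟨?_, ?_⟩, hxa⟩
      · obtain ⟨z, hz⟩ := hne
        obtain ⟨y, hy⟩ := (ht hz).1.1
        exact ⟨y, hy.trans_le (hx.1 hz)⟩
      · intro y hy
        obtain ⟨z, hz, hyz⟩ := (lt_isLUB_iff hx).1 hy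
        obtain ⟨v, hv, h1, h2⟩ := (ht hz).1.2 y hyz
        exact ⟨v, hv, h1, h2.trans_le (hx.1 hz)⟩
    · intro z hz hzT
      exact hmin z ⟨hzT, hz.1⟩ hz.2
  · push Not at hub
    obtain ⟨γ, hγ, hγ'⟩ := hub
    -- successors of the points of `D` between `γ` and `a`
    refine ⟨{z | ∃ x ∈ D, γ < x ∧ x < a ∧ z = Order.succ x}, ?_, ?_, ?_, ?_⟩
    · rintro _ ⟨x, hx, h1, h2, rfl⟩
      obtain ⟨v, -, h3, h4⟩ := (hlim a haT).2 x h2
      exact (Order.succ_le_of_lt h3).trans_lt h4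
    · intro y hy
      obtain ⟨x, hx, h1, h2⟩ := haL.2 (max γ y) (max_lt hγ hy)
      exact ⟨Order.succ x, ⟨x, hx, (le_max_left _ _).trans_lt h1, h2, rfl⟩,
        ((le_max_right _ _).trans_lt h1).trans (Order.lt_succ x)⟩
    · intro t ht hne x hx hxa
      by_cases hxt : x ∈ t
      · exact ht hxt
      · exfalso
        obtain ⟨z0, hz0⟩ := hne
        obtain ⟨x0, hx0, h1, h2, h3⟩ := ht hz0
        have hx0x : x0 < x := (Order.lt_succ x0).trans_le (h3 ▸ hx.1 hz0)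
        refine absurd hxa (not_lt.2 (hγ' x ⟨⟨x0, hx0x⟩, ?_⟩ (h1.trans hx0x)))
        intro y hy
        obtain ⟨z, hz, hyz⟩ := (lt_isLUB_iff hx).1 hy
        have hzx : z < x := lt_of_le_of_ne (hx.1 hz) (fun h => hxt (h ▸ hz))
        obtain ⟨z', hz', hzz'⟩ := (lt_isLUB_iff hx).1 hzx
        obtain ⟨v, hv, h4, h5, h6⟩ := ht hz'
        refine ⟨v, hv, ?_, ?_⟩
        · rw [h6] at hzz'
          exact hyz.trans_le (Order.lt_succ_iff.1 hzz')
        · have h7 : Order.succ v ≤ x := h6 ▸ hx.1 hz'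
          exact (Order.lt_succ v).trans_le h7
    · rintro _ ⟨x, hx, h1, h2, rfl⟩ hT'
      obtain ⟨v, -, h3, h4⟩ := (hlim _ hT').2 x (Order.lt_succ x)
      exact absurd (Order.succ_le_of_lt h3) (not_le.2 h4)

/-- a stationary set is the union of two disjoint stationary sets -/
theorem split (hr : κ.IsRegular) (h0 : ℵ₀ < κ) {T : Set κ.ord.ToType} (hT : IsStationary T) :
    ∃ X ⊆ T, IsStationary X ∧ IsStationary (T \ X) := by
  have hno := Cardinal.noMaxOrder hr.1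
  have hcof := cof_ne hr h0
  -- we may assume that all points of `T` are limits
  have key : ∀ T : Set κ.ord.ToType, IsStationary T → (∀ a ∈ T, Lim univ a) →
      ∃ X ⊆ T, IsStationary X ∧ IsStationary (T \ X) := by
    intro T hT hlim
    by_contra hc
    push Not at hc
    have hG := stat_good hr h0 hT hlim
    set T' : Set κ.ord.ToType := {a | a ∈ T ∧ ∃ c, Good T a c} with hT'
    have hsub : T' ⊆ T := fun a ha => ha.1
    have hcc : ∀ a, ∃ c, a ∈ T' → Good T a c := by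
      intro a
      by_cases ha : a ∈ T'
      · exact ⟨ha.2.choose, fun _ => ha.2.choose_spec⟩
      · exact ⟨∅, fun h => absurd h ha⟩
    choose c hc' using hcc
    have hclub : IsClub {x | ¬ IsStationary {a | a ∈ T' ∧ x ∉ c a}} := by
      refine ⟨?_, ?_⟩
      · intro t ht hne _ x hx hst
        have hle : {a | a ∈ T' ∧ x ∉ c a} ⊆
            (⋃ η : t, {a | a ∈ T' ∧ (η : κ.ord.ToType) ∉ c a}) ∪ Iic x := by
          intro a ha
          by_cases hax : a ≤ x
          · exact Or.inr hax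
          · refine Or.inl ?_
            by_contra hcon
            simp only [mem_iUnion, not_exists, mem_ofPred_eq, not_and, not_not] at hcon
            exact ha.2 ((hc' a ha.1).2.2.1 t (fun η hη => hcon ⟨η, hη⟩ ha.1) hne x hx
              (lt_of_not_ge hax))
        have h1 := hst.mono hle
        rw [isStationary_union_iff hcof] at h1
        rcases h1 with h1 | h1
        · have hcard : Cardinal.lift.{u} #t < Cardinal.lift.{u} (Order.cof κ.ord.ToType) := by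
            rw [Cardinal.lift_lt, Ordinal.cof_toType, hr.cof_ord]
            exact (mk_le_mk_of_subset fun η hη => hx.1 hη).trans_lt (mk_Iic_lt hr.1 x)
          rw [isStationary_iUnion_iff hcof hcard] at h1
          obtain ⟨η, hη⟩ := h1
          exact ht η.2 hη
        · exact not_stat_Iic hr x h1
      · intro ξ
        have h1 : IsStationary (T' ∩ Ioi ξ) := stat_inter_club hr h0 hG (isClub_Ioi hr ξ)
        have h2 : ∀ a, ∃ z, a ∈ T' ∩ Ioi ξ → z ∈ c a ∧ ξ < z := by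
          intro a
          by_cases ha : a ∈ T' ∩ Ioi ξ
          · obtain ⟨z, hz, hz'⟩ := (hc' a ha.1).2.1 ξ ha.2
            exact ⟨z, fun _ => ⟨hz, hz'⟩⟩
          · exact ⟨ξ, fun h => absurd h ha⟩
        choose h hh using h2
        obtain ⟨b, hb⟩ := fodor hr h0 h1 h fun a ha => (hc' a ha.1).1 _ (hh a ha).1
        refine ⟨b, ?_, ?_⟩
        · intro hst
          refine hc _ ?_ hb (hst.mono ?_)
          · exact fun a ha => hsub ha.1.1
          · rintro a ⟨ha, hab⟩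
            refine ⟨hsub ha, fun hcon => hab ?_⟩
            have := (hh a hcon.1).1
            rwa [hcon.2] at this
        · obtain ⟨a, ha⟩ := hb.nonempty
          have := (hh a ha.1).2
          rw [ha.2] at this
          exact this.le
    obtain ⟨x, hxT, hx⟩ := hT hclub
    apply hx
    refine hG.mono fun a ha => ⟨ha, fun hxc => (hc' a ha).2.2.2 x hxc hxT⟩
  have hL : IsStationary {a | a ∈ T ∧ Lim univ a} := by
    intro D hD
    obtain ⟨a, haT, haE⟩ := (stat_inter_club hr h0 hT hD)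
      (closure_club hr h0 (fun z : κ.ord.ToType => Order.succ z))
    refine ⟨a, ⟨haT.1, haE.1, fun y hy => ⟨Order.succ y, trivial, Order.lt_succ y, haE.2 y hy⟩⟩,
      haT.2⟩
  obtain ⟨X, hX, h1, h2⟩ := key _ hL fun a ha => ha.2
  exact ⟨X, fun a ha => (hX ha).1, h1, h2.mono fun a ha => ⟨ha.1.1, ha.2⟩⟩

end Pool.Agent.H7.WD
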