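import Pool.Agent.H7.WD.Sing

set_option autoImplicit false

/-!
# Weak diamond up to discontinuities with regressive values
-/

open Cardinal Ordinal Set Order

universe u

namespace Pool.Agent.H7.WD

variable {κ : Cardinal.{u}}

theorem exists_colouring (hr : κ.IsRegular) (I D : Type u) [Nonempty D] (hI : #I ≤ κ)
    (hD : #D ≤ κ) (X : I → Set κ.ord.ToType) (hX : ∀ i, ∀ δ, ∃ γ ∈ X i, δ < γ) :
    ∃ d : κ.ord.ToType → D, ∀ i, ∀ e : D, ∃ γ ∈ X i, d γ = e := by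
  classical
  have hno := Cardinal.noMaxOrder hr.1
  obtain ⟨e⟩ : Nonempty (I × D ↪ κ.ord.ToType) := by
    rw [← Cardinal.le_def, Cardinal.mk_ord_toType]
    calc #(I × D) = #I * #D := by simp
      _ ≤ κ * κ := mul_le_mul' hI hD
      _ = κ := Cardinal.mul_eq_self hr.1
  let X' : κ.ord.ToType → Set κ.ord.ToType := fun j =>
    if h : ∃ i b, j = e (i, b) then X h.choose else univ
  have hX' : ∀ j, ∀ δ, ∃ γ ∈ X' j, δ < γ := by
    intro j δ
    show ∃ γ ∈ (if h : ∃ i b, j = e (i, b) then X h.choose else univ), δ < γ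
    split_ifs with h
    · exact hX _ δ
    · obtain ⟨γ, hγ⟩ := exists_gt δ
      exact ⟨γ, trivial, hγ⟩
  have hXe : ∀ i b, X' (e (i, b)) = X i := by
    intro i b
    have h : ∃ i' b', e (i, b) = e (i', b') := ⟨i, b, rfl⟩
    show (if h : ∃ i' b', e (i, b) = e (i', b') then X h.choose else univ) = X i
    rw [dif_pos h]
    obtain ⟨b', hb'⟩ := h.choose_spec
    have := e.injective hb'
    rw [Prod.mk.injEq] at this
    rw [← this.1]
  have hP : ∀ (j : κ.ord.ToType) (y : Iio j → κ.ord.ToType), ∃ γ ∈ X' j, ∀ j', y j' < γ := by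
    intro j y
    obtain ⟨b, hb⟩ := exists_bound_fun y (by
      rw [hr.cof_ord]
      exact mk_Iio_toType_ord_lt j)
    obtain ⟨γ, hγ, hbγ⟩ := hX' j b
    exact ⟨γ, hγ, fun j' => (hb j').trans hbγ⟩
  choose P hP1 hP2 using hP
  have wf := wellFounded_lt (α := κ.ord.ToType)
  let x : κ.ord.ToType → κ.ord.ToType := wf.fix fun j ih => P j fun j' => ih j' j'.2
  have hx : ∀ j, x j = P j fun j' => x j' := fun j =>
    wf.fix_eq (fun j (ih : ∀ j', j' < j → κ.ord.ToType) => P j fun j' => ih j' j'.2) j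
  have hmono : StrictMono x := by
    intro j' j hj
    rw [hx j]
    exact hP2 j (fun j' => x j') ⟨j', hj⟩
  have hmem : ∀ j, x j ∈ X' j := by
    intro j
    rw [hx j]
    exact hP1 j _
  refine ⟨fun γ => if h : ∃ b i, γ = x (e (i, b)) then h.choose else Classical.arbitrary D,
    fun i b => ?_⟩
  refine ⟨x (e (i, b)), hXe i b ▸ hmem _, ?_⟩
  have h : ∃ b' i', x (e (i, b)) = x (e (i', b')) := ⟨b, i, rfl⟩
  show (if h : ∃ b' i', x (e (i, b)) = x (e (i', b')) then h.choose else _) = b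
  rw [dif_pos h]
  obtain ⟨i', hi'⟩ := h.choose_spec
  have := e.injective (hmono.injective hi')
  rw [Prod.mk.injEq] at this
  exact this.2.symm

/-- local constancy at `s` for functions with values in an arbitrary set -/
def LocConst {a : κ.ord.ToType} {Q : Type u} (G : (Iio a → Bool) → Q) (s : Iio a → Bool) : Prop :=
  ∃ b < a, ∀ t : Iio a → Bool, (∀ x : Iio a, (x : κ.ord.ToType) < b → t x = s x) → G t = G s

theorem guess_regressive (hr : κ.IsRegular) (h0 : ℵ₀ < κ)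
    (hs : ∀ x < κ, (2 : Cardinal.{u}) ^ x < κ) {S : Set κ.ord.ToType}
    (hS : IsStationary {a | a ∈ S ∧ Sing a})
    (F : (a : κ.ord.ToType) → (Iio a → Bool) → κ.ord.ToType) (hF : ∀ a ∈ S, ∀ s, F a s < a) :
    ∃ g : κ.ord.ToType → κ.ord.ToType, ∀ f : κ.ord.ToType → Bool,
      IsStationary {a | a ∈ S ∧ (F a (res f a) = g a ∨ ¬ LocConst (F a) (res f a))} := by
  classical
  have hno := Cardinal.noMaxOrder hr.1
  have hcof := cof_ne hr h0
  -- fix the length of the ladders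
  have h1 : ∀ a, ∃ b, (a ∈ S ∧ Sing a) → b < a ∧ ∃ c : Iio b → κ.ord.ToType, (∀ m, c m < a) ∧
      ∀ y < a, ∃ m, y < c m := by
    intro a
    by_cases ha : a ∈ S ∧ Sing a
    · obtain ⟨b, h1, h2⟩ := ha.2
      exact ⟨b, fun _ => ⟨h1, h2⟩⟩
    · exact ⟨a, fun h => absurd h ha⟩
  choose h hh using h1
  obtain ⟨b0, hb0⟩ := fodor hr h0 hS h fun a ha => (hh a ha).1
  set R : Set κ.ord.ToType := {a | a ∈ {a | a ∈ S ∧ Sing a} ∧ h a = b0} with hR
  have hRS : ∀ a ∈ R, a ∈ S := fun a ha => ha.1.1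
  have hlad : ∀ a, ∃ c : Iio b0 → κ.ord.ToType, a ∈ R → (∀ m, c m < a) ∧ ∀ y < a, ∃ m, y < c m := by
    intro a
    by_cases ha : a ∈ R
    · obtain ⟨h1, h2⟩ := hh a ha.1
      rw [ha.2] at h2
      obtain ⟨c, hc⟩ := h2
      exact ⟨c, fun _ => hc⟩
    · exact ⟨fun _ => a, fun h => absurd h ha⟩
  choose η hη using hlad
  have hM : #(Iio b0) < κ := mk_Iio_toType_ord_lt b0
  have hcardM : ∀ {N : Type u}, #N < κ →
      Cardinal.lift.{u} #N < Cardinal.lift.{u} (Order.cof κ.ord.ToType) := by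
    intro N hN
    rw [Cardinal.lift_lt, Ordinal.cof_toType, hr.cof_ord]
    exact hN
  have hκκ : κ * κ = κ := Cardinal.mul_eq_self hr.1
  -- the index set
  let I1 : Type u := Σ b : κ.ord.ToType, (Iio b → Bool)
  let I2 : Type u := Σ b : κ.ord.ToType, (Iio b0 → Iio b)
  have hI1 : #I1 ≤ κ := by
    show #(Σ b : κ.ord.ToType, (Iio b → Bool)) ≤ κ
    rw [Cardinal.mk_sigma]
    calc Cardinal.sum (fun b : κ.ord.ToType => #(Iio b → Bool))
        ≤ Cardinal.sum (fun _ : κ.ord.ToType => κ) := Cardinal.sum_le_sum _ _ fun b => by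
          have := hs _ (mk_Iio_toType_ord_lt b)
          simpa using this.le
      _ = κ * κ := by simp
      _ = κ := hκκ
  have hpow : ∀ b : κ.ord.ToType, #(Iio b0 → Iio b) < κ := by
    intro b
    have := power_lt hr hs (mk_Iio_toType_ord_lt b) hM
    rwa [Cardinal.power_def] at this
  have hI2 : #I2 ≤ κ := by
    show #(Σ b : κ.ord.ToType, (Iio b0 → Iio b)) ≤ κ
    rw [Cardinal.mk_sigma]
    calc Cardinal.sum (fun b : κ.ord.ToType => #(Iio b0 → Iio b))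
        ≤ Cardinal.sum (fun _ : κ.ord.ToType => κ) := Cardinal.sum_le_sum _ _ fun b => (hpow b).le
      _ = κ * κ := by simp
      _ = κ := hκκ
  let I : Type u := (I1 × κ.ord.ToType) × (Iio b0 × I2)
  have hI : #I ≤ κ := by
    have h2 : #I = (#I1 * #κ.ord.ToType) * (#(Iio b0) * #I2) := by
      show #((I1 × κ.ord.ToType) × (Iio b0 × I2)) = _
      simp only [Cardinal.mk_prod, Cardinal.lift_id]
    rw [h2, Cardinal.mk_ord_toType]
    calc (#I1 * κ) * (#(Iio b0) * #I2) ≤ (κ * κ) * (κ * κ) :=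
          mul_le_mul' (mul_le_mul' hI1 le_rfl) (mul_le_mul' hM.le hI2)
      _ = κ := by rw [hκκ, hκκ]
  let T : I → Set κ.ord.ToType := fun i => {a | a ∈ R ∧ (∀ t : Iio a → Bool,
    (∀ (x : κ.ord.ToType) (hx : x < i.1.1.1) (hxa : x < a), t ⟨x, hxa⟩ = i.1.1.2 ⟨x, hx⟩) →
      F a t = i.1.2) ∧ ∀ m < i.2.1, η a m = i.2.2.2 m}
  let X : I → Set κ.ord.ToType := fun i => {γ | IsStationary {a | a ∈ T i ∧ η a i.2.1 = γ}}
  have hm0 : Nonempty (Iio b0) := by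
    obtain ⟨a, ha⟩ := (stat_inter_club hr h0 hb0 (isClub_Ioi hr b0)).nonempty
    obtain ⟨m, -⟩ := (hη a ha.1).2 b0 ha.2
    exact ⟨m⟩
  have hne : Nonempty κ.ord.ToType := ⟨b0⟩
  obtain ⟨d, hd⟩ := exists_colouring hr I (κ.ord.ToType × Bool) hI (by
      have h2 : #(κ.ord.ToType × Bool) = κ * 2 := by simp
      rw [h2]
      calc κ * 2 ≤ κ * κ := mul_le_mul' le_rfl (Cardinal.ofNat_lt_aleph0.trans h0).le
        _ = κ := hκκ)
    (fun i => if ∀ δ, ∃ γ ∈ X i, δ < γ then X i else univ) (by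
      intro i δ
      split_ifs with h2
      · exact h2 δ
      · obtain ⟨γ, hγ⟩ := exists_gt δ
        exact ⟨γ, trivial, hγ⟩)
  -- the types
  have hcov : R ⊆ ⋃ r : Iio b0 → Bool, {a | a ∈ R ∧ ∀ m, (d (η a m)).2 = r m} := by
    intro a ha
    simp only [mem_iUnion]
    exact ⟨fun m => (d (η a m)).2, ha, fun _ => rfl⟩
  have h2 := hb0.mono hcov
  rw [isStationary_iUnion_iff hcof (hcardM (by simpa using hs _ hM))] at h2
  obtain ⟨r, hr'⟩ := h2
  set W : Set κ.ord.ToType := {a | a ∈ R ∧ ∀ m, (d (η a m)).2 = r m} with hW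
  have wfM := wellFounded_lt (α := Iio b0)
  -- the first difference
  have hg : ∀ a, ∃ y : κ.ord.ToType, ∀ m, (d (η a m)).2 ≠ r m →
      (∀ m' < m, (d (η a m')).2 = r m') → y = (d (η a m)).1 := by
    intro a
    by_cases ha : ∃ m, (d (η a m)).2 ≠ r m ∧ ∀ m' < m, (d (η a m')).2 = r m'
    · obtain ⟨m, hm1, hm2⟩ := ha
      refine ⟨(d (η a m)).1, fun n hn1 hn2 => ?_⟩
      rcases lt_trichotomy m n with h3 | h3 | h3
      · exact absurd (hn2 m h3) hm1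
      · rw [h3]
      · exact absurd (hm2 n h3) hn1
    · exact ⟨b0, fun m hm1 hm2 => absurd ⟨m, hm1, hm2⟩ ha⟩
  choose g hg using hg
  refine ⟨g, fun f => ?_⟩
  by_contra hcon
  obtain ⟨C, hC, hdis⟩ := not_isStationary_iff.1 hcon
  have hneq : ∀ a ∈ C, a ∈ S → F a (res f a) ≠ g a := fun a haC haS h =>
    Set.disjoint_left.1 hdis ⟨haS, Or.inl h⟩ haC
  have hcont : ∀ a ∈ C, a ∈ S → LocConst (F a) (res f a) := by
    intro a haC haS
    by_contra h
    exact Set.disjoint_left.1 hdis ⟨haS, Or.inr h⟩ haC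
  have hWC : IsStationary (W ∩ C) := stat_inter_club hr h0 hr' hC
  have h4 : ∀ a, ∃ b, a ∈ W ∩ C → b < a ∧ ∀ t : Iio a → Bool,
      (∀ x : Iio a, (x : κ.ord.ToType) < b → t x = res f a x) → F a t = F a (res f a) := by
    intro a
    by_cases ha : a ∈ W ∩ C
    · obtain ⟨b, h1, h2⟩ := hcont a ha.2 (hRS a ha.1.1)
      exact ⟨b, fun _ => ⟨h1, h2⟩⟩
    · exact ⟨a, fun h => absurd h ha⟩
  choose k hk using h4
  obtain ⟨b, hb⟩ := fodor hr h0 hWC k fun a ha => (hk a ha).1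
  obtain ⟨q, hq⟩ := fodor hr h0 hb (fun a => F a (res f a)) fun a ha => hF a (hRS a ha.1.1.1) _
  set U : Set κ.ord.ToType := {a | a ∈ {a | a ∈ W ∩ C ∧ k a = b} ∧ F a (res f a) = q} with hU
  have hUR : ∀ a ∈ U, a ∈ R := fun a ha => ha.1.1.1.1
  have hUW : ∀ a ∈ U, a ∈ W := fun a ha => ha.1.1.1
  have hex : {m : Iio b0 | ∀ δ, ∃ γ, δ < γ ∧ IsStationary {a | a ∈ U ∧ η a m = γ}}.Nonempty := by
    obtain ⟨m, hm⟩ := exists_unbdd_fibre hr h0 hM η hq (fun a ha => (hη a (hUR a ha)).1)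
      (fun a ha => (hη a (hUR a ha)).2)
    exact ⟨m, hm⟩
  obtain ⟨m, hm, hmin⟩ := wfM.has_min _ hex
  -- the earlier coordinates are bounded
  have h5 : ∀ m' : Iio b0, ∃ δ, m' < m → ∀ γ, δ < γ → ¬ IsStationary {a | a ∈ U ∧ η a m' = γ} := by
    intro m'
    by_cases hm' : m' < m
    · have h6 : ¬ ∀ δ, ∃ γ, δ < γ ∧ IsStationary {a | a ∈ U ∧ η a m' = γ} := fun h => hmin m' h hm'
      push Not at h6
      obtain ⟨δ, hδ⟩ := h6
      exact ⟨δ, fun _ => hδ⟩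
    · exact ⟨b0, fun h => absurd h hm'⟩
  choose δ hδ using h5
  obtain ⟨δ0, hδ0⟩ := exists_bound_fun δ (by rw [hr.cof_ord]; exact hM)
  have hbad : ¬ IsStationary (⋃ m' : Iio b0, {a | (a ∈ U ∧ m' < m) ∧ δ0 ≤ η a m'}) := by
    rw [isStationary_iUnion_iff hcof (hcardM hM)]
    rintro ⟨m', hm'⟩
    obtain ⟨γ, hγ⟩ := fodor hr h0 hm' (fun a => η a m') fun a ha => (hη a (hUR a ha.1.1)).1 m'
    obtain ⟨a, ha⟩ := hγ.nonempty
    have h6 : δ m' < γ := (hδ0 m').trans_le (ha.2 ▸ ha.1.2)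
    exact hδ m' ha.1.1.2 γ h6 (hγ.mono fun a ha => ⟨ha.1.1.1, ha.2⟩)
  have h6 : ∀ γ, IsStationary {a | a ∈ U ∧ η a m = γ} → ∃ σ : Iio b0 → Iio δ0,
      IsStationary {a | a ∈ U ∧ (∀ m' < m, η a m' = σ m') ∧ η a m = γ} := by
    intro γ hγ
    have h7 := hγ.mono (t := (⋃ m' : Iio b0, {a | (a ∈ U ∧ m' < m) ∧ δ0 ≤ η a m'}) ∪
      ⋃ σ : Iio b0 → Iio δ0, {a | a ∈ U ∧ (∀ m' < m, η a m' = σ m') ∧ η a m = γ}) (by
        rintro a ⟨haU, haγ⟩
        by_cases hall : ∀ m' < m, η a m' < δ0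
        · right
          simp only [mem_iUnion]
          obtain ⟨m1⟩ := hm0
          have hδne : ∃ z, z < δ0 := ⟨δ m1, hδ0 m1⟩
          obtain ⟨z, hz⟩ := hδne
          let σ0 : Iio b0 → Iio δ0 := fun m' => if h : η a m' < δ0 then ⟨η a m', h⟩ else ⟨z, hz⟩
          have hσ0 : ∀ m', ∀ hm' : m' < m, σ0 m' = ⟨η a m', hall m' hm'⟩ :=
            fun m' hm' => dif_pos (hall m' hm')
          exact ⟨σ0, haU, fun m' hm' => by rw [hσ0 m' hm'], haγ⟩
        · left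
          push Not at hall
          obtain ⟨m', h8, h9⟩ := hall
          simp only [mem_iUnion]
          exact ⟨m', ⟨haU, h8⟩, h9⟩)
    rw [isStationary_union_iff hcof] at h7
    have h8 := h7.resolve_left hbad
    rw [isStationary_iUnion_iff hcof (hcardM (hpow δ0))] at h8
    exact h8
  have h7 : ∃ σ : Iio b0 → Iio δ0, ∀ δ', ∃ γ, δ' < γ ∧
      IsStationary {a | a ∈ U ∧ (∀ m' < m, η a m' = σ m') ∧ η a m = γ} := by
    by_contra hc
    push Not at hc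
    choose ε hε using hc
    obtain ⟨ε0, hε0⟩ := exists_bound_fun ε (by rw [hr.cof_ord]; exact hpow δ0)
    obtain ⟨γ, hγ1, hγ2⟩ := hm ε0
    obtain ⟨σ, hσ⟩ := h6 γ hγ2
    exact hε σ γ ((hε0 σ).trans hγ1) hσ
  obtain ⟨σ, hσ⟩ := h7
  let i : I := ((⟨b, fun x => f x⟩, q), (m, ⟨δ0, σ⟩))
  have hUT : ∀ a, a ∈ U ∧ (∀ m' < m, η a m' = σ m') → a ∈ T i := by
    rintro a ⟨haU, haσ⟩
    refine ⟨hUR a haU, fun t ht => ?_, haσ⟩
    rw [(hk a haU.1.1).2 t fun x hx => by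
      rw [haU.1.2] at hx
      exact ht x hx x.2]
    exact haU.2
  have hXi : ∀ δ, ∃ γ ∈ X i, δ < γ := by
    intro δ'
    obtain ⟨γ, h8, h9⟩ := hσ δ'
    exact ⟨γ, h9.mono fun a ha => ⟨hUT a ⟨ha.1, ha.2.1⟩, ha.2.2⟩, h8⟩
  obtain ⟨γ, hγ, hdγ⟩ := hd i (q, !r m)
  rw [if_pos hXi] at hγ
  obtain ⟨γ1, -, hγ1⟩ := hσ b0
  obtain ⟨a1, ha1⟩ := hγ1.nonempty
  have hσr : ∀ m' < m, (d (σ m')).2 = r m' := by
    intro m' hm'
    rw [← ha1.2.1 m' hm']
    exact (hUW a1 ha1.1).2 m'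
  obtain ⟨a, ⟨haT, haγ⟩, haC⟩ := (stat_inter_club hr h0 hγ hC).nonempty
  have h10 : F a (res f a) = q := haT.2.1 _ fun x hx hxa => rfl
  have haγ' : η a m = γ := haγ
  have h11 : g a = (d (η a m)).1 := by
    refine hg a m ?_ ?_
    · rw [haγ', hdγ]
      cases r m <;> simp
    · intro m' hm'
      have h12 : η a m' = σ m' := haT.2.2 m' hm'
      rw [h12]
      exact hσr m' hm'
  rw [haγ', hdγ] at h11
  exact hneq a haC (hRS a haT.1) (h10.trans h11.symm)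

end Pool.Agent.H7.WD
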