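import Pool.Agent.H7.WD.Many

set_option autoImplicit false

/-!
# Weak diamond for continuous functions at singular points
-/

open Cardinal Ordinal Set Order

universe u

namespace Pool.Agent.H7.WD

variable {κ : Cardinal.{u}}

theorem exists_unbdd_fibre (hr : κ.IsRegular) (h0 : ℵ₀ < κ) {M : Type u} (hM : #M < κ)
    (η : κ.ord.ToType → M → κ.ord.ToType) {T : Set κ.ord.ToType} (hT : IsStationary T)
    (h1 : ∀ a ∈ T, ∀ m, η a m < a) (h2 : ∀ a ∈ T, ∀ y < a, ∃ m, y < η a m) :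
    ∃ m, ∀ δ, ∃ γ, δ < γ ∧ IsStationary {a | a ∈ T ∧ η a m = γ} := by
  by_contra hc
  push Not at hc
  choose δ hδ using hc
  obtain ⟨δ0, hδ0⟩ := exists_bound_fun δ (by rw [hr.cof_ord]; exact hM)
  have h3 : IsStationary (T ∩ Ioi δ0) := stat_inter_club hr h0 hT (isClub_Ioi hr δ0)
  have hcov : T ∩ Ioi δ0 ⊆ ⋃ m : M, {a | a ∈ T ∧ δ0 < η a m} := by
    rintro a ⟨haT, ha⟩
    obtain ⟨m, hm⟩ := h2 a haT δ0 ha
    simp only [mem_iUnion]
    exact ⟨m, haT, hm⟩
  have hcard : Cardinal.lift.{u} #M < Cardinal.lift.{u} (Order.cof κ.ord.ToType) := by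
    rw [Cardinal.lift_lt, Ordinal.cof_toType, hr.cof_ord]
    exact hM
  have h4 := h3.mono hcov
  rw [isStationary_iUnion_iff (cof_ne hr h0) hcard] at h4
  obtain ⟨m, hm⟩ := h4
  obtain ⟨γ, hγ⟩ := fodor hr h0 hm (fun a => η a m) fun a ha => h1 a ha.1 m
  obtain ⟨a, ha⟩ := hγ.nonempty
  have h5 : δ0 < γ := ha.2 ▸ ha.1.2
  exact hδ m γ ((hδ0 m).trans h5) (hγ.mono fun a ha => ⟨ha.1.1, ha.2⟩)

theorem exists_colour (hr : κ.IsRegular) (h0 : ℵ₀ < κ) (I : Type u) (hI : #I ≤ κ)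
    (X : I → Set κ.ord.ToType) (hX : ∀ i, ∀ δ, ∃ γ ∈ X i, δ < γ) :
    ∃ d : κ.ord.ToType → Bool, ∀ i, ∀ e : Bool, ∃ γ ∈ X i, d γ = e := by
  classical
  have hno := Cardinal.noMaxOrder hr.1
  obtain ⟨e⟩ : Nonempty (I × Bool ↪ κ.ord.ToType) := by
    rw [← Cardinal.le_def, Cardinal.mk_ord_toType]
    have h1 : #(I × Bool) = #I * Cardinal.lift.{u} #Bool := by simp
    calc #(I × Bool) ≤ κ * κ := by
          rw [h1]
          refine mul_le_mul' hI ?_
          simp only [Cardinal.mk_fintype, Fintype.card_bool, Nat.cast_ofNat, Cardinal.lift_ofNat]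
          exact (Cardinal.ofNat_lt_aleph0.trans h0).le
      _ = κ := Cardinal.mul_eq_self hr.1
  let X' : κ.ord.ToType → Set κ.ord.ToType := fun j =>
    if h : ∃ i b, j = e (i, b) then X h.choose else univ
  have hX' : ∀ j, ∀ δ, ∃ γ ∈ X' j, δ < γ := by
    intro j δ
    show ∃ γ ∈ (if h : ∃ i b, j = e (i, b) then X h.choose else univ), δ < γ
    split_ifs with h
    · exact hX _ δ
    · obtain ⟨γ, hγ⟩ := exists_gt δ
      exact ⟨γ, trivial, hγ⟩
  have hXe : ∀ i b, X' (e (i, b)) = X i := by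
    intro i b
    have h : ∃ i' b', e (i, b) = e (i', b') := ⟨i, b, rfl⟩
    show (if h : ∃ i' b', e (i, b) = e (i', b') then X h.choose else univ) = X i
    rw [dif_pos h]
    obtain ⟨b', hb'⟩ := h.choose_spec
    have := e.injective hb'
    rw [Prod.mk.injEq] at this
    rw [← this.1]
  have hP : ∀ (j : κ.ord.ToType) (y : Iio j → κ.ord.ToType), ∃ γ ∈ X' j, ∀ j', y j' < γ := by
    intro j y
    obtain ⟨b, hb⟩ := exists_bound_fun y (by
      rw [hr.cof_ord]
      exact mk_Iio_toType_ord_lt j)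
    obtain ⟨γ, hγ, hbγ⟩ := hX' j b
    exact ⟨γ, hγ, fun j' => (hb j').trans hbγ⟩
  choose P hP1 hP2 using hP
  have wf := wellFounded_lt (α := κ.ord.ToType)
  let x : κ.ord.ToType → κ.ord.ToType := wf.fix fun j ih => P j fun j' => ih j' j'.2
  have hx : ∀ j, x j = P j fun j' => x j' := fun j =>
    wf.fix_eq (fun j (ih : ∀ j', j' < j → κ.ord.ToType) => P j fun j' => ih j' j'.2) j
  have hmono : StrictMono x := by
    intro j' j hj
    rw [hx j]
    exact hP2 j (fun j' => x j') ⟨j', hj⟩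
  have hmem : ∀ j, x j ∈ X' j := by
    intro j
    rw [hx j]
    exact hP1 j _
  refine ⟨fun γ => decide (∃ i, γ = x (e (i, true))), fun i b => ?_⟩
  refine ⟨x (e (i, b)), hXe i b ▸ hmem _, ?_⟩
  cases b with
  | true => simp only [decide_eq_true_eq]; exact ⟨i, rfl⟩
  | false =>
    simp only [decide_eq_false_iff_not, not_exists]
    intro i' h
    have := e.injective (hmono.injective h)
    simp at this

/-- `G` is continuous at `s` for the bounded topology -/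
def ContAt {a : κ.ord.ToType} (G : (Iio a → Bool) → Bool) (s : Iio a → Bool) : Prop :=
  ∃ b < a, ∀ t : Iio a → Bool, (∀ x : Iio a, (x : κ.ord.ToType) < b → t x = s x) → G t = G s

/-- weak diamond on `S` for `F`, up to discontinuities -/
def Guess (S : Set κ.ord.ToType) (F : (a : κ.ord.ToType) → (Iio a → Bool) → Bool) : Prop :=
  ∃ g : κ.ord.ToType → Bool, ∀ f : κ.ord.ToType → Bool,
    IsStationary {a | a ∈ S ∧ (F a (res f a) = g a ∨ ¬ ContAt (F a) (res f a))}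

/-- the nonstationary ideal restricted to `S` has a dense family of at most `κ` sets -/
def DenseNS (S : Set κ.ord.ToType) : Prop :=
  ∃ (I : Type u) (T : I → Set κ.ord.ToType), #I ≤ κ ∧
    ∀ W ⊆ S, IsStationary W → ∃ i, IsStationary (T i) ∧ ¬ IsStationary (T i \ W)

/-- the point `a` is singular: it has a cofinal family of length less than `a` -/
def Sing (a : κ.ord.ToType) : Prop :=
  ∃ b < a, ∃ c : Iio b → κ.ord.ToType, (∀ m, c m < a) ∧ ∀ y < a, ∃ m, y < c m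

theorem dense_of_not_guess (hr : κ.IsRegular) (h0 : ℵ₀ < κ)
    (hs : ∀ x < κ, (2 : Cardinal.{u}) ^ x ≤ κ) {S : Set κ.ord.ToType}
    (F : (a : κ.ord.ToType) → (Iio a → Bool) → Bool) (hF : ¬ Guess S F) : DenseNS S := by
  classical
  have hno := Cardinal.noMaxOrder hr.1
  let I : Type u := Σ b : κ.ord.ToType, (Iio b → Bool)
  have hI : #I ≤ κ := by
    show #(Σ b : κ.ord.ToType, (Iio b → Bool)) ≤ κ
    rw [Cardinal.mk_sigma]
    calc Cardinal.sum (fun b : κ.ord.ToType => #(Iio b → Bool))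
        ≤ Cardinal.sum (fun _ : κ.ord.ToType => κ) := Cardinal.sum_le_sum _ _ fun b => by
          have := hs _ (mk_Iio_toType_ord_lt b)
          simpa using this
      _ = κ * κ := by simp
      _ = κ := Cardinal.mul_eq_self hr.1
  refine ⟨I, fun i => {a | a ∈ S ∧ ∀ t : Iio a → Bool,
    (∀ (x : κ.ord.ToType) (hx : x < i.1) (hxa : x < a), t ⟨x, hxa⟩ = i.2 ⟨x, hx⟩) → F a t = false},
    hI, fun W hWS hW => ?_⟩
  unfold Guess at hF
  push Not at hF
  obtain ⟨f, hf⟩ := hF fun a => decide (a ∈ W)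
  obtain ⟨C, hC, hdis⟩ := not_isStationary_iff.1 hf
  have hne : ∀ a ∈ C, a ∈ S → F a (res f a) = !decide (a ∈ W) := by
    intro a haC haS
    have h3 : ¬ F a (res f a) = decide (a ∈ W) :=
      fun h => Set.disjoint_left.1 hdis ⟨haS, Or.inl h⟩ haC
    cases hF1 : F a (res f a) <;> cases hF2 : decide (a ∈ W) <;> simp_all
  have hcont : ∀ a ∈ C, a ∈ S → ContAt (F a) (res f a) := by
    intro a haC haS
    by_contra h
    exact Set.disjoint_left.1 hdis ⟨haS, Or.inr h⟩ haC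
  have hWC : IsStationary (W ∩ C) := stat_inter_club hr h0 hW hC
  have h4 : ∀ a, ∃ b, a ∈ W ∩ C → b < a ∧ ∀ t : Iio a → Bool,
      (∀ x : Iio a, (x : κ.ord.ToType) < b → t x = res f a x) → F a t = F a (res f a) := by
    intro a
    by_cases ha : a ∈ W ∩ C
    · obtain ⟨b, h1, h2⟩ := hcont a ha.2 (hWS ha.1)
      exact ⟨b, fun _ => ⟨h1, h2⟩⟩
    · exact ⟨a, fun h => absurd h ha⟩
  choose k hk using h4
  obtain ⟨b, hb⟩ := fodor hr h0 hWC k fun a ha => (hk a ha).1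
  refine ⟨⟨b, fun x => f x⟩, ?_, ?_⟩
  · refine hb.mono ?_
    rintro a ⟨haW, hab⟩
    refine ⟨hWS haW.1, fun t ht => ?_⟩
    have h5 := (hk a haW).2 t fun x hx => by
      rw [hab] at hx
      exact ht x hx x.2
    rw [h5, hne a haW.2 (hWS haW.1)]
    simp [haW.1]
  · intro hst
    obtain ⟨a, ⟨⟨haS, haT⟩, haW⟩, haC⟩ := (stat_inter_club hr h0 hst hC).nonempty
    have h7 : F a (res f a) = false := haT _ fun x hx hxa => rfl
    have h8 := hne a haC haS
    rw [h7] at h8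
    simp [haW] at h8

theorem not_dense_of_sing (hr : κ.IsRegular) (h0 : ℵ₀ < κ)
    (hs : ∀ x < κ, (2 : Cardinal.{u}) ^ x < κ) {S : Set κ.ord.ToType} (hS : IsStationary S)
    (hsing : ∀ a ∈ S, Sing a) : ¬ DenseNS S := by
  classical
  have hno := Cardinal.noMaxOrder hr.1
  rintro ⟨I, T, hI, hT⟩
  -- fix the length of the ladders
  have h1 : ∀ a, ∃ b, a ∈ S → b < a ∧ ∃ c : Iio b → κ.ord.ToType, (∀ m, c m < a) ∧
      ∀ y < a, ∃ m, y < c m := by
    intro a
    by_cases ha : a ∈ S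
    · obtain ⟨b, h1, h2⟩ := hsing a ha
      exact ⟨b, fun _ => ⟨h1, h2⟩⟩
    · exact ⟨a, fun h => absurd h ha⟩
  choose h hh using h1
  obtain ⟨b0, hb0⟩ := fodor hr h0 hS h fun a ha => (hh a ha).1
  set R : Set κ.ord.ToType := {a | a ∈ S ∧ h a = b0} with hR
  have hlad : ∀ a, ∃ c : Iio b0 → κ.ord.ToType, a ∈ R → (∀ m, c m < a) ∧ ∀ y < a, ∃ m, y < c m := by
    intro a
    by_cases ha : a ∈ R
    · obtain ⟨h1, h2⟩ := hh a ha.1
      rw [ha.2] at h2
      obtain ⟨c, hc⟩ := h2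
      exact ⟨c, fun _ => hc⟩
    · exact ⟨fun _ => a, fun h => absurd h ha⟩
  choose η hη using hlad
  have hM : #(Iio b0) < κ := mk_Iio_toType_ord_lt b0
  have hm : ∀ i, ∃ m : Iio b0, IsStationary (T i ∩ R) →
      ∀ δ, ∃ γ, δ < γ ∧ IsStationary {a | a ∈ T i ∩ R ∧ η a m = γ} := by
    intro i
    by_cases hi : IsStationary (T i ∩ R)
    · obtain ⟨m, hm⟩ := exists_unbdd_fibre hr h0 hM η hi (fun a ha => (hη a ha.2).1)
        (fun a ha => (hη a ha.2).2)
      exact ⟨m, fun _ => hm⟩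
    · obtain ⟨a, ha⟩ := (stat_inter_club hr h0 hb0 (isClub_Ioi hr b0)).nonempty
      obtain ⟨m, -⟩ := (hη a ha.1).2 b0 ha.2
      exact ⟨m, fun h => absurd h hi⟩
  choose m hm using hm
  obtain ⟨d, hd⟩ := exists_colour hr h0 I hI
    (fun i => {γ | IsStationary (T i ∩ R) → IsStationary {a | a ∈ T i ∩ R ∧ η a (m i) = γ}}) (by
      intro i δ
      by_cases hi : IsStationary (T i ∩ R)
      · obtain ⟨γ, h1, h2⟩ := hm i hi δ
        exact ⟨γ, fun _ => h2, h1⟩
      · obtain ⟨γ, hγ⟩ := exists_gt δ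
        exact ⟨γ, fun h => absurd h hi, hγ⟩)
  -- the types
  have hcov : R ⊆ ⋃ r : Iio b0 → Bool, {a | a ∈ R ∧ ∀ m, d (η a m) = r m} := by
    intro a ha
    simp only [mem_iUnion]
    exact ⟨fun m => d (η a m), ha, fun _ => rfl⟩
  have hcard : Cardinal.lift.{u} #(Iio b0 → Bool) < Cardinal.lift.{u} (Order.cof κ.ord.ToType) := by
    rw [Cardinal.lift_lt, Ordinal.cof_toType, hr.cof_ord]
    simpa using hs _ hM
  have h2 := hb0.mono hcov
  rw [isStationary_iUnion_iff (cof_ne hr h0) hcard] at h2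
  obtain ⟨r, hr'⟩ := h2
  obtain ⟨i, hi, hiW⟩ := hT {a | a ∈ R ∧ ∀ m, d (η a m) = r m} (fun a ha => ha.1.1) hr'
  apply hiW
  by_cases hiR : IsStationary (T i ∩ R)
  · obtain ⟨γ, hγ, hdγ⟩ := hd i (!r (m i))
    refine (hγ hiR).mono ?_
    rintro a ⟨haT, haγ⟩
    refine ⟨haT.1, fun haW => ?_⟩
    have h10 := haW.2 (m i)
    rw [haγ, hdγ] at h10
    cases hrm : r (m i) <;> simp [hrm] at h10
  · have h11 : IsStationary ((T i ∩ R) ∪ (T i \ R)) := by rwa [Set.inter_union_sdiff]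
    rw [isStationary_union_iff (cof_ne hr h0)] at h11
    rcases h11 with h11 | h11
    · exact absurd h11 hiR
    · exact h11.mono fun a ha => ⟨ha.1, fun haW => ha.2 haW.1⟩

end Pool.Agent.H7.WD
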