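import Pool.Agent.H7.WD.Cont

set_option autoImplicit false

/-!
# If the nonstationary ideal has a small dense family then the weak diamond up to discontinuities fails
-/

open Cardinal Ordinal Set Order

universe u v

namespace Pool.Agent.H7.WD

variable {κ : Cardinal.{u}}

/-- extension by `false` -/
noncomputable def ext {a : κ.ord.ToType} (t : Iio a → Bool) (x : κ.ord.ToType) : Bool :=
  open Classical in if hx : x < a then t ⟨x, hx⟩ else false

theorem ext_res (f : κ.ord.ToType → Bool) {a x : κ.ord.ToType} (hx : x < a) :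
    ext (res f a) x = f x := by
  unfold ext
  rw [dif_pos hx]
  rfl

theorem not_guess_of_dense (hr : κ.IsRegular) (h0 : ℵ₀ < κ) {S : Set κ.ord.ToType}
    (hD : DenseNS S) : ∃ F : (a : κ.ord.ToType) → (Iio a → Bool) → Bool, ¬ Guess S F := by
  classical
  have hno := Cardinal.noMaxOrder hr.1
  have hcof := cof_ne hr h0
  obtain ⟨I, T, hI, hT⟩ := hD
  obtain ⟨e⟩ : Nonempty (I × Bool ↪ κ.ord.ToType) := by
    rw [← Cardinal.le_def, Cardinal.mk_ord_toType]
    have h1 : #(I × Bool) = #I * Cardinal.lift.{u} #Bool := by simp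
    calc #(I × Bool) ≤ κ * κ := by
          rw [h1]
          refine mul_le_mul' hI ?_
          simp only [Cardinal.mk_fintype, Fintype.card_bool, Nat.cast_ofNat, Cardinal.lift_ofNat]
          exact (Cardinal.ofNat_lt_aleph0.trans h0).le
      _ = κ := Cardinal.mul_eq_self hr.1
  let u : I → κ.ord.ToType := fun i => e (i, false)
  let v : I → κ.ord.ToType := fun i => e (i, true)
  have hu : Function.Injective u := fun i j h => by
    have := e.injective h
    simpa using this
  -- the first index
  let Least : (a : κ.ord.ToType) → (Iio a → Bool) → I → Prop := fun a t i =>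
    ext t (u i) = true ∧ a ∈ T i ∧ ∀ j, u j < u i → ¬ (ext t (u j) = true ∧ a ∈ T j)
  have huniq : ∀ a t i j, Least a t i → Least a t j → i = j := by
    intro a t i j hi hj
    rcases lt_trichotomy (u i) (u j) with h | h | h
    · exact absurd ⟨hi.1, hi.2.1⟩ (hj.2.2 i h)
    · exact hu h
    · exact absurd ⟨hj.1, hj.2.1⟩ (hi.2.2 j h)
  refine ⟨fun a t => decide (∃ i, Least a t i ∧ ext t (v i) = false), ?_⟩
  rintro ⟨g, hg⟩
  -- the good indices
  let good : I → Prop := fun i => ∃ c : Bool, ¬ IsStationary {a | a ∈ T i ∧ g a ≠ c}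
  have h1 : ∀ i, ∃ (c : Bool) (C : Set κ.ord.ToType), IsClub C ∧
      (good i → ∀ a ∈ C, a ∈ T i → g a = c) := by
    intro i
    by_cases hi : good i
    · obtain ⟨c, hc⟩ := hi
      obtain ⟨C, hC, hdis⟩ := not_isStationary_iff.1 hc
      refine ⟨c, C, hC, fun _ a haC haT => ?_⟩
      by_contra h
      exact Set.disjoint_left.1 hdis ⟨haT, h⟩ haC
    · obtain ⟨m⟩ : Nonempty κ.ord.ToType := by
        rw [← Cardinal.mk_ne_zero_iff]
        simpa using (hr.pos).ne'
      exact ⟨true, Ioi m, isClub_Ioi hr m, fun h => absurd h hi⟩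
  choose c C hC hcC using h1
  let f : κ.ord.ToType → Bool := fun x =>
    decide ((∃ i, x = u i ∧ good i) ∨ ∃ i, x = v i ∧ c i = true)
  have huv : ∀ i j, u i ≠ v j := fun i j h => by
    have := e.injective h
    simp at this
  have hvi : ∀ i j, v i = v j → i = j := fun i j h => by
    have := e.injective h
    simpa using this
  have hfu : ∀ i, f (u i) = true ↔ good i := by
    intro i
    show decide _ = true ↔ _
    rw [decide_eq_true_iff]
    constructor
    · rintro (⟨j, hj, h⟩ | ⟨j, hj, -⟩)
      · rwa [hu hj]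
      · exact absurd hj (huv i j)
    · exact fun h => Or.inl ⟨i, rfl, h⟩
  have hfv : ∀ i, f (v i) = c i := by
    intro i
    have : f (v i) = true ↔ c i = true := by
      show decide _ = true ↔ _
      rw [decide_eq_true_iff]
      constructor
      · rintro (⟨j, hj, h⟩ | ⟨j, hj, h⟩)
        · exact absurd hj.symm (huv j i)
        · rwa [hvi _ _ hj]
      · exact fun h => Or.inr ⟨i, rfl, h⟩
    exact Bool.eq_iff_iff.2 this
  -- the clubs
  let C' : κ.ord.ToType → Set κ.ord.ToType := fun y => if h : ∃ i, y = u i then C h.choose else univ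
  have hC'u : ∀ i, C' (u i) = C i := by
    intro i
    have h : ∃ j, u i = u j := ⟨i, rfl⟩
    show (if h : ∃ j, u i = u j then C h.choose else univ) = C i
    rw [dif_pos h]
    rw [← hu h.choose_spec]
  have hC' : ∀ y, IsClub (C' y) := by
    intro y
    show IsClub (if h : ∃ i, y = u i then C h.choose else univ)
    split_ifs with h
    · exact hC _
    · exact ⟨fun t _ _ _ x _ => trivial, fun x => ⟨x, trivial, le_rfl⟩⟩
  obtain ⟨D, hD, hD'⟩ := diag_club hr h0 C' hC'
  let H : κ.ord.ToType → κ.ord.ToType := fun y =>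
    Order.succ (if h : ∃ i, y = u i then max y (v h.choose) else y)
  have hH : ∀ i, v i < H (u i) ∧ u i < H (u i) := by
    intro i
    have h : ∃ j, u i = u j := ⟨i, rfl⟩
    have h2 : H (u i) = Order.succ (max (u i) (v i)) := by
      show Order.succ (if h : ∃ j, u i = u j then max (u i) (v h.choose) else u i) = _
      rw [dif_pos h, ← hu h.choose_spec]
    rw [h2]
    exact ⟨(le_max_right _ _).trans_lt (Order.lt_succ _),
      (le_max_left _ _).trans_lt (Order.lt_succ _)⟩
  have hE := closure_club hr h0 H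
  -- almost every point of `S` is in some good set
  have hW : ¬ IsStationary {a | a ∈ S ∧ ∀ i, good i → u i < a → a ∉ T i} := by
    intro hW
    have h2 : ∃ c : Bool, IsStationary {a | (a ∈ S ∧ ∀ i, good i → u i < a → a ∉ T i) ∧ g a = c} := by
      have h3 := hW.mono (t := {a | (a ∈ S ∧ ∀ i, good i → u i < a → a ∉ T i) ∧ g a = true} ∪
        {a | (a ∈ S ∧ ∀ i, good i → u i < a → a ∉ T i) ∧ g a = false}) (by
          intro a ha
          cases hga : g a
          · exact Or.inr ⟨ha, hga⟩
          · exact Or.inl ⟨ha, hga⟩)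
      rw [isStationary_union_iff hcof] at h3
      rcases h3 with h3 | h3
      · exact ⟨true, h3⟩
      · exact ⟨false, h3⟩
    obtain ⟨c, hc⟩ := h2
    obtain ⟨i, hi, hiW⟩ := hT _ (fun a ha => ha.1.1) hc
    have hgi : good i := by
      refine ⟨c, fun h => hiW (h.mono ?_)⟩
      rintro a ⟨haT, hga⟩
      exact ⟨haT, fun h => hga h.2⟩
    have h4 : ¬ IsStationary ((T i ∩ Ioi (u i)) \ {a | (a ∈ S ∧ ∀ i, good i → u i < a → a ∉ T i) ∧
        g a = c}) := fun h => hiW (h.mono fun a ha => ⟨ha.1.1, ha.2⟩)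
    apply h4
    refine (stat_inter_club hr h0 hi (isClub_Ioi hr (u i))).mono ?_
    rintro a ⟨haT, hau⟩
    exact ⟨⟨haT, hau⟩, fun h => h.1.2 i hgi hau haT⟩
  obtain ⟨D1, hD1, hdis⟩ := not_isStationary_iff.1 hW
  obtain ⟨a, ⟨haS, ha⟩, ⟨haD, haE⟩, haD1⟩ := hg f ((hD.inter hcof hE).inter hcof hD1)
  have h2 : ∃ i, good i ∧ u i < a ∧ a ∈ T i := by
    by_contra h
    push Not at h
    exact Set.disjoint_left.1 hdis ⟨haS, h⟩ haD1
  obtain ⟨y, ⟨i, rfl, hgi, hia, haT⟩, hmin⟩ := WellFounded.has_min
    (wellFounded_lt (α := κ.ord.ToType)) {y | ∃ i, y = u i ∧ good i ∧ u i < a ∧ a ∈ T i}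
    (by obtain ⟨i, hi⟩ := h2; exact ⟨u i, i, rfl, hi⟩)
  have hHa := haE.2 (u i) hia
  have key : ∀ t : Iio a → Bool, (∀ x : Iio a, (x : κ.ord.ToType) < H (u i) → t x = res f a x) →
      decide (∃ i, Least a t i ∧ ext t (v i) = false) = !(c i) := by
    intro t ht
    have hext : ∀ x < H (u i), ext t x = f x := by
      intro x hx
      have hxa : x < a := hx.trans hHa
      unfold ext
      rw [dif_pos hxa]
      exact ht ⟨x, hxa⟩ hx
    have hL : Least a t i := by
      refine ⟨?_, haT, ?_⟩
      · rw [hext _ (hH i).2]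
        exact (hfu i).2 hgi
      · rintro j hj ⟨h3, h4⟩
        rw [hext _ (hj.trans (hH i).2)] at h3
        exact hmin (u j) ⟨j, rfl, (hfu j).1 h3, hj.trans hia, h4⟩ hj
    have hval : ext t (v i) = c i := by rw [hext _ (hH i).1, hfv]
    cases hci : c i
    · simp only [Bool.not_false, decide_eq_true_eq]
      exact ⟨i, hL, by rw [hval, hci]⟩
    · simp only [Bool.not_true, decide_eq_false_iff_not]
      rintro ⟨j, hj, hj'⟩
      rw [huniq a t j i hj hL, hval, hci] at hj'
      exact absurd hj' (by simp)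
  have hgc : g a = c i := by
    refine hcC i hgi a ?_ haT
    rw [← hC'u i]
    exact (hD' a haD).2 (u i) hia
  rcases ha with ha | ha
  · have h5 := key (res f a) fun x _ => rfl
    beta_reduce at ha
    rw [h5, hgc] at ha
    cases hci : c i <;> simp [hci] at ha
  · apply ha
    exact ⟨H (u i), hHa, fun t ht => by
      beta_reduce
      rw [key t ht, key (res f a) fun x _ => rfl]⟩

end Pool.Agent.H7.WD
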