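import Pool.Agent.H7.WD.Club

set_option autoImplicit false

/-!
# Weak diamond: functions with bounded memory, and the amplification of a failure
-/

open Cardinal Ordinal Set Order

universe u

namespace Pool.Agent.H7.WD

variable {κ : Cardinal.{u}}

/-- the restriction of `f` to the points below `a` -/
def res (f : κ.ord.ToType → Bool) (a : κ.ord.ToType) : Iio a → Bool := fun x => f x

/-- the weak diamond `Φ_κ` -/
def Phi (κ : Cardinal.{u}) : Prop :=
  ∀ F : (a : κ.ord.ToType) → (Iio a → Bool) → Bool, ∃ g : κ.ord.ToType → Bool,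
    ∀ f : κ.ord.ToType → Bool, IsStationary {a | F a (res f a) = g a}

theorem bounded_memory (hr : κ.IsRegular) (h0 : ℵ₀ < κ) (hs : ∀ x < κ, (2 : Cardinal.{u}) ^ x < κ)
    {S : Set κ.ord.ToType} (hS : IsStationary S) (h : κ.ord.ToType → κ.ord.ToType)
    (hh : ∀ a ∈ S, h a < a) (F : (a : κ.ord.ToType) → (Iio a → Bool) → Bool)
    (hF : ∀ a ∈ S, ∀ s t : Iio a → Bool, (∀ x : Iio a, (x : κ.ord.ToType) < h a → s x = t x) →
      F a s = F a t) :
    ∃ g : κ.ord.ToType → Bool, ∀ f : κ.ord.ToType → Bool,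
      IsStationary {a | a ∈ S ∧ F a (res f a) = g a} := by
  classical
  have hno := Cardinal.noMaxOrder hr.1
  obtain ⟨b, hb⟩ := fodor hr h0 hS h hh
  -- the possible tables
  let ext : (Iio b → Bool) → (a : κ.ord.ToType) → Iio a → Bool :=
    fun r a x => if hx : (x : κ.ord.ToType) < b then r ⟨x, hx⟩ else false
  let ψ : κ.ord.ToType → (Iio b → Bool) → Bool := fun a r => F a (ext r a)
  have hcov : {a | a ∈ S ∧ h a = b} ⊆
      ⋃ θ : (Iio b → Bool) → Bool, {a | (a ∈ S ∧ h a = b) ∧ ψ a = θ} := by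
    intro a ha
    simp only [mem_iUnion]
    exact ⟨ψ a, ha, rfl⟩
  have hcard : Cardinal.lift.{u} #((Iio b → Bool) → Bool) <
      Cardinal.lift.{u} (Order.cof κ.ord.ToType) := by
    rw [Cardinal.lift_lt, Ordinal.cof_toType, hr.cof_ord]
    have h1 : #(Iio b) < κ := (mk_le_mk_of_subset fun x (hx : x < b) => hx.le).trans_lt
      (mk_Iic_lt hr.1 b)
    have h2 : #(Iio b → Bool) < κ := by
      simpa using hs _ h1
    simpa using hs _ h2
  have h1 := hb.mono hcov
  rw [isStationary_iUnion_iff (cof_ne hr h0) hcard] at h1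
  obtain ⟨θ, hθ⟩ := h1
  obtain ⟨X, hX, hX1, hX2⟩ := split hr h0 hθ
  refine ⟨fun a => decide (a ∈ X), fun f => ?_⟩
  have hval : ∀ a, (a ∈ S ∧ h a = b) ∧ ψ a = θ → F a (res f a) = θ (fun x => f x) := by
    rintro a ⟨⟨haS, hab⟩, haθ⟩
    rw [← haθ]
    refine hF a haS _ _ fun x hx => ?_
    rw [hab] at hx
    show f x = if hx : (x : κ.ord.ToType) < b then f x else false
    rw [dif_pos hx]
  rcases hv : θ (fun x => f x) with _ | _
  · refine hX2.mono ?_
    rintro a ⟨ha, haX⟩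
    refine ⟨ha.1.1, ?_⟩
    rw [hval a ha, hv]
    simp [haX]
  · refine hX1.mono ?_
    intro a ha
    refine ⟨(hX ha).1.1, ?_⟩
    rw [hval a (hX ha), hv]
    simp [ha]

theorem amplification (hr : κ.IsRegular) (h0 : ℵ₀ < κ) :
    ¬ Phi κ ↔ ∃ G : (a : κ.ord.ToType) → (Iio a → Bool) → Set (Iio a),
      ∀ A : (a : κ.ord.ToType) → Set (Iio a), ∃ f : κ.ord.ToType → Bool,
        ∃ C : Set κ.ord.ToType, IsClub C ∧ ∀ a ∈ C, G a (res f a) = A a := by
  classical
  have hno := Cardinal.noMaxOrder hr.1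
  constructor
  · intro hP
    unfold Phi at hP
    push Not at hP
    obtain ⟨F, hF⟩ := hP
    have hinf : ℵ₀ ≤ #κ.ord.ToType := by simpa using hr.1
    obtain ⟨e⟩ : Nonempty (κ.ord.ToType × κ.ord.ToType ≃ κ.ord.ToType) := by
      apply Cardinal.eq.1
      rw [Cardinal.mk_prod]
      simpa using Cardinal.mul_eq_self hinf
    refine ⟨fun a s => {i | F a (fun x => if hx : e ((i : κ.ord.ToType), (x : κ.ord.ToType)) < a
      then s ⟨_, hx⟩ else false) = true}, fun A => ?_⟩
    -- the function that predicts the bit `i`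
    have h1 : ∀ i : κ.ord.ToType, ∃ f : κ.ord.ToType → Bool, ∃ C : Set κ.ord.ToType, IsClub C ∧
        ∀ a ∈ C, ∀ hi : i < a, (F a (res f a) = true ↔ (⟨i, hi⟩ : Iio a) ∈ A a) := by
      intro i
      obtain ⟨f, hf⟩ := hF fun a => if hi : i < a then !decide ((⟨i, hi⟩ : Iio a) ∈ A a) else false
      obtain ⟨C, hC, hd⟩ := not_isStationary_iff.1 hf
      refine ⟨f, C, hC, fun a ha hi => ?_⟩
      have h2 : ¬ F a (res f a) = (if hi : i < a then !decide ((⟨i, hi⟩ : Iio a) ∈ A a) else false) :=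
        fun h => Set.disjoint_left.1 hd h ha
      rw [dif_pos hi] at h2
      by_cases hm : (⟨i, hi⟩ : Iio a) ∈ A a
      · simp only [hm, decide_true, Bool.not_true, Bool.not_eq_false, iff_true] at h2 ⊢
        exact h2
      · simp only [hm, decide_false, Bool.not_false, Bool.not_eq_true, iff_false] at h2 ⊢
        exact h2
    choose fi Ci hCi hfi using h1
    -- interleaving
    refine ⟨fun y => fi (e.symm y).1 (e.symm y).2, ?_⟩
    have hH : ∀ z : κ.ord.ToType, ∃ y, ∀ i ≤ z, ∀ x ≤ z, e (i, x) < y := by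
      intro z
      obtain ⟨y, hy⟩ := exists_bound_fun
        (fun p : Iic z × Iic z => e ((p.1 : κ.ord.ToType), (p.2 : κ.ord.ToType))) (by
          rw [hr.cof_ord, Cardinal.mk_prod]
          simpa using Cardinal.mul_lt_of_lt hr.1 (mk_Iic_lt hr.1 z) (mk_Iic_lt hr.1 z))
      exact ⟨y, fun i hi x hx => hy (⟨i, hi⟩, ⟨x, hx⟩)⟩
    choose H hH using hH
    obtain ⟨D, hD, hD'⟩ := diag_club hr h0 Ci hCi
    refine ⟨D ∩ {x | (∃ y, y < x) ∧ ∀ b < x, H b < x},
      hD.inter (cof_ne hr h0) (closure_club hr h0 H), ?_⟩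
    rintro a ⟨haD, haH⟩
    ext i
    rw [← hfi i.1 a ((hD' a haD).2 i.1 i.2) i.2]
    show F a _ = true ↔ _
    have : (fun x : Iio a => if hx : e ((i : κ.ord.ToType), (x : κ.ord.ToType)) < a then
        res (fun y => fi (e.symm y).1 (e.symm y).2) a ⟨_, hx⟩ else false) = res (fi i) a := by
      funext x
      have hx : e ((i : κ.ord.ToType), (x : κ.ord.ToType)) < a :=
        (hH (max i.1 x.1) i.1 (le_max_left _ _) x.1 (le_max_right _ _)).trans
          (haH.2 _ (max_lt i.2 x.2))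
      rw [dif_pos hx]
      simp [res]
    rw [this]
  · rintro ⟨G, hG⟩ hP
    have hne : Nonempty κ.ord.ToType := by
      rw [← Cardinal.mk_ne_zero_iff]
      simpa using (hr.pos).ne'
    obtain ⟨m⟩ := hne
    obtain ⟨g, hg⟩ := hP fun a s => if hm : m < a then decide ((⟨m, hm⟩ : Iio a) ∈ G a s) else false
    obtain ⟨f, C, hC, hf⟩ := hG fun a => {x | x.1 = m ∧ g a = false}
    obtain ⟨a, ha, haC⟩ := hg f (hC.inter (cof_ne hr h0) (isClub_Ioi hr m))
    have hm : m < a := haC.2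
    have h1 : (if hm : m < a then decide ((⟨m, hm⟩ : Iio a) ∈ G a (res f a)) else false) = g a := ha
    rw [dif_pos hm, hf a haC.1] at h1
    cases hga : g a <;> simp [hga] at h1

end Pool.Agent.H7.WD
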