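import Pool.Agent.H7.WD.Main

set_option autoImplicit false

/-!
# Splitting into many stationary sets, and weak diamond with many colours for bounded memory
-/

open Cardinal Ordinal Set Order

universe u

namespace Pool.Agent.H7.WD

variable {κ : Cardinal.{u}}

theorem power_lt (hr : κ.IsRegular) (hs : ∀ x < κ, (2 : Cardinal.{u}) ^ x < κ)
    {a b : Cardinal.{u}} (ha : a < κ) (hb : b < κ) : a ^ b < κ := by
  have h1 : a ^ b ≤ ((2 : Cardinal.{u}) ^ a) ^ b :=
    Cardinal.power_le_power_right (Cardinal.cantor a).le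
  rw [← Cardinal.power_mul] at h1
  exact h1.trans_lt (hs _ (Cardinal.mul_lt_of_lt hr.1 ha hb))

/-- a stationary set contains `M` pairwise disjoint stationary sets, for every `M` smaller than
the strongly inaccessible cardinal -/
theorem split_many (hr : κ.IsRegular) (h0 : ℵ₀ < κ) (hs : ∀ x < κ, (2 : Cardinal.{u}) ^ x < κ)
    {T : Set κ.ord.ToType} (hT : IsStationary T) (M : Type u) (hM : #M < κ) :
    ∃ Y : M → Set κ.ord.ToType, (∀ m, Y m ⊆ T) ∧ (∀ m, IsStationary (Y m)) ∧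
      ∀ m m', m ≠ m' → Disjoint (Y m) (Y m') := by
  classical
  have hX : ∀ W : Set κ.ord.ToType, ∃ X ⊆ W, IsStationary W → IsStationary X ∧
      IsStationary (W \ X) := by
    intro W
    by_cases hW : IsStationary W
    · obtain ⟨X, hX, h1, h2⟩ := split hr h0 hW
      exact ⟨X, hX, fun _ => ⟨h1, h2⟩⟩
    · exact ⟨∅, empty_subset _, fun h => absurd h hW⟩
  choose Xs hXs hXs' using hX
  have wf : WellFounded (WellOrderingRel (α := M)) := IsWellFounded.wf
  let x : M → κ.ord.ToType → Bool := wf.fix fun ν ih a =>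
    decide (a ∈ Xs {a' | a' ∈ T ∧ ∀ ν' (h : WellOrderingRel ν' ν), ih ν' h a' = ih ν' h a})
  have hx : ∀ ν a, x ν a =
      decide (a ∈ Xs {a' | a' ∈ T ∧ ∀ ν', WellOrderingRel ν' ν → x ν' a' = x ν' a}) := by
    intro ν a
    have := wf.fix_eq (fun ν (ih : ∀ ν', WellOrderingRel ν' ν → κ.ord.ToType → Bool) a =>
      decide (a ∈ Xs {a' | a' ∈ T ∧ ∀ ν' (h : WellOrderingRel ν' ν), ih ν' h a' = ih ν' h a})) ν
    exact congrFun this a
  have hcov : T ⊆ ⋃ s : M → Bool, {a | a ∈ T ∧ ∀ ν, x ν a = s ν} := by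
    intro a ha
    simp only [mem_iUnion]
    exact ⟨fun ν => x ν a, ha, fun _ => rfl⟩
  have hcard : Cardinal.lift.{u} #(M → Bool) < Cardinal.lift.{u} (Order.cof κ.ord.ToType) := by
    rw [Cardinal.lift_lt, Ordinal.cof_toType, hr.cof_ord]
    simpa using hs _ hM
  have h1 := hT.mono hcov
  rw [isStationary_iUnion_iff (cof_ne hr h0) hcard] at h1
  obtain ⟨s, hst⟩ := h1
  let W : M → Set κ.ord.ToType := fun ν => {a | a ∈ T ∧ ∀ ν', WellOrderingRel ν' ν → x ν' a = s ν'}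
  have hW : ∀ ν, IsStationary (W ν) := fun ν => hst.mono fun a ha => ⟨ha.1, fun ν' _ => ha.2 ν'⟩
  have hxW : ∀ ν, ∀ a ∈ W ν, x ν a = decide (a ∈ Xs (W ν)) := by
    intro ν a ha
    have hset : {a' | a' ∈ T ∧ ∀ ν', WellOrderingRel ν' ν → x ν' a' = x ν' a} = W ν := by
      ext a'
      constructor
      · rintro ⟨h2, h3⟩
        exact ⟨h2, fun ν' hν' => (h3 ν' hν').trans (ha.2 ν' hν')⟩
      · rintro ⟨h2, h3⟩
        exact ⟨h2, fun ν' hν' => (h3 ν' hν').trans (ha.2 ν' hν').symm⟩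
    rw [hx, hset]
  refine ⟨fun ν => {a | a ∈ W ν ∧ x ν a = !s ν}, fun ν a ha => ha.1.1, fun ν => ?_, ?_⟩
  · obtain ⟨h2, h3⟩ := hXs' (W ν) (hW ν)
    rcases hv : s ν with _ | _
    · refine h2.mono fun a ha => ⟨hXs _ ha, ?_⟩
      rw [hxW ν a (hXs _ ha)]
      simp [ha, hv]
    · refine h3.mono ?_
      rintro a ⟨ha, ha'⟩
      refine ⟨ha, ?_⟩
      rw [hxW ν a ha]
      simp [ha', hv]
  · have key : ∀ ν ν', WellOrderingRel ν' ν →
        Disjoint {a | a ∈ W ν ∧ x ν a = !s ν} {a | a ∈ W ν' ∧ x ν' a = !s ν'} := by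
      intro ν ν' h
      rw [Set.disjoint_left]
      rintro a ⟨ha, -⟩ ⟨-, ha'⟩
      rw [ha.2 ν' h] at ha'
      cases hv : s ν' <;> simp [hv] at ha'
    intro ν ν' hne
    rcases trichotomous_of (WellOrderingRel (α := M)) ν ν' with h | h | h
    · exact (key ν' ν h).symm
    · exact absurd h hne
    · exact key ν ν' h

/-- `F` uses only the restriction of its argument to the points below `b` -/
def DependsBelow {Q : Type u} {a : κ.ord.ToType} (F : (Iio a → Bool) → Q)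
    (b : κ.ord.ToType) : Prop :=
  ∀ s t : Iio a → Bool, (∀ x : Iio a, (x : κ.ord.ToType) < b → s x = t x) → F s = F t

theorem bounded_memory_colours (hr : κ.IsRegular) (h0 : ℵ₀ < κ)
    (hs : ∀ x < κ, (2 : Cardinal.{u}) ^ x < κ) {S : Set κ.ord.ToType} (hS : IsStationary S)
    (Q : Type u) (hQ : #Q < κ) (F : (a : κ.ord.ToType) → (Iio a → Bool) → Q)
    (hF : ∀ a ∈ S, ∃ b < a, DependsBelow (F a) b) :
    ∃ g : κ.ord.ToType → Q, ∀ f : κ.ord.ToType → Bool,
      IsStationary {a | a ∈ S ∧ F a (res f a) = g a} := by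
  classical
  have hno := Cardinal.noMaxOrder hr.1
  have hF' : ∀ a, ∃ b, a ∈ S → b < a ∧ DependsBelow (F a) b := by
    intro a
    by_cases ha : a ∈ S
    · obtain ⟨b, h1, h2⟩ := hF a ha
      exact ⟨b, fun _ => ⟨h1, h2⟩⟩
    · exact ⟨a, fun h => absurd h ha⟩
  choose h hh using hF'
  obtain ⟨b, hb⟩ := fodor hr h0 hS h fun a ha => (hh a ha).1
  let ext : (Iio b → Bool) → (a : κ.ord.ToType) → Iio a → Bool :=
    fun r a x => if hx : (x : κ.ord.ToType) < b then r ⟨x, hx⟩ else false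
  let ψ : κ.ord.ToType → (Iio b → Bool) → Q := fun a r => F a (ext r a)
  have hcov : {a | a ∈ S ∧ h a = b} ⊆
      ⋃ θ : (Iio b → Bool) → Q, {a | (a ∈ S ∧ h a = b) ∧ ψ a = θ} := by
    intro a ha
    simp only [mem_iUnion]
    exact ⟨ψ a, ha, rfl⟩
  have hcard : Cardinal.lift.{u} #((Iio b → Bool) → Q) <
      Cardinal.lift.{u} (Order.cof κ.ord.ToType) := by
    rw [Cardinal.lift_lt, Ordinal.cof_toType, hr.cof_ord]
    have h1 : #(Iio b) < κ := (mk_le_mk_of_subset fun x (hx : x < b) => hx.le).trans_lt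
      (mk_Iic_lt hr.1 b)
    have h2 : #(Iio b → Bool) < κ := by
      simpa using hs _ h1
    have h3 := power_lt hr hs hQ h2
    rwa [Cardinal.power_def] at h3
  have h1 := hb.mono hcov
  rw [isStationary_iUnion_iff (cof_ne hr h0) hcard] at h1
  obtain ⟨θ, hθ⟩ := h1
  obtain ⟨Y, hY, hY1, hY2⟩ := split_many hr h0 hs hθ Q hQ
  obtain ⟨a0, ha0⟩ := hθ.nonempty
  let q0 : Q := F a0 (fun _ => false)
  refine ⟨fun a => if ha : ∃ q, a ∈ Y q then ha.choose else q0, fun f => ?_⟩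
  have hval : ∀ a, (a ∈ S ∧ h a = b) ∧ ψ a = θ → F a (res f a) = θ (fun x => f x) := by
    rintro a ⟨⟨haS, hab⟩, haθ⟩
    rw [← haθ]
    refine (hh a haS).2 _ _ fun x hx => ?_
    rw [hab] at hx
    show f x = if hx : (x : κ.ord.ToType) < b then f x else false
    rw [dif_pos hx]
  refine (hY1 (θ fun x => f x)).mono ?_
  intro a ha
  have h2 := hY _ ha
  refine ⟨h2.1.1, ?_⟩
  rw [hval a h2]
  have h3 : ∃ q, a ∈ Y q := ⟨_, ha⟩
  show _ = if ha : ∃ q, a ∈ Y q then ha.choose else q0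
  rw [dif_pos h3]
  by_contra hne
  exact Set.disjoint_left.1 (hY2 _ _ hne) ha h3.choose_spec

end Pool.Agent.H7.WD
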