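import Pool.Agent.H7.WD.Colours

set_option autoImplicit false

/-!
# Continuity relative to a set of codes
-/

open Cardinal Ordinal Set Order

universe u

namespace Pool.Agent.H7.WD

variable {κ : Cardinal.{u}}

/-- the restriction of `G` to the functions `h↾a`, `h ∈ K`, is continuous (for the bounded
topology, the values being discrete) at `f↾a` -/
def RelCont {Q : Type*} {a : κ.ord.ToType} (K : Set (κ.ord.ToType → Bool))
    (G : (Iio a → Bool) → Q) (f : κ.ord.ToType → Bool) : Prop :=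
  ∃ b < a, ∀ h ∈ K, (∀ x < b, h x = f x) → G (res h a) = G (res f a)

theorem relCont_univ {a : κ.ord.ToType} (G : (Iio a → Bool) → Bool) (f : κ.ord.ToType → Bool) :
    RelCont univ G f ↔ ContAt G (res f a) := by
  classical
  constructor
  · rintro ⟨b, hb, h⟩
    refine ⟨b, hb, fun t ht => ?_⟩
    let k : κ.ord.ToType → Bool := fun x => if hx : x < a then t ⟨x, hx⟩ else false
    have hk : res k a = t := by
      funext x
      exact dif_pos (show (x : κ.ord.ToType) < a from x.2)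
    rw [← hk]
    refine h k trivial fun x hx => ?_
    have h1 : k x = t ⟨x, hx.trans hb⟩ := dif_pos (hx.trans hb)
    rw [h1]
    exact ht ⟨x, hx.trans hb⟩ hx
  · rintro ⟨b, hb, h⟩
    exact ⟨b, hb, fun k _ hk => h (res k a) fun x hx => hk x hx⟩

theorem dense_of_codes (hr : κ.IsRegular) (h0 : ℵ₀ < κ)
    (hs : ∀ x < κ, (2 : Cardinal.{u}) ^ x ≤ κ) {S : Set κ.ord.ToType}
    (K : Set (κ.ord.ToType → Bool)) (F : (a : κ.ord.ToType) → (Iio a → Bool) → Bool)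
    (hF : ∀ W ⊆ S, IsStationary W → ∃ W' ⊆ W, ∃ f ∈ K,
      ¬ IsStationary {a | a ∈ S ∧ ¬ (F a (res f a) = true ↔ a ∈ W')} ∧
        IsStationary {a | a ∈ W' ∧ RelCont K (F a) f}) : DenseNS S := by
  classical
  have hno := Cardinal.noMaxOrder hr.1
  let I : Type u := Σ b : κ.ord.ToType, (Iio b → Bool)
  have hI : #I ≤ κ := by
    show #(Σ b : κ.ord.ToType, (Iio b → Bool)) ≤ κ
    rw [Cardinal.mk_sigma]
    calc Cardinal.sum (fun b : κ.ord.ToType => #(Iio b → Bool))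
        ≤ Cardinal.sum (fun _ : κ.ord.ToType => κ) := Cardinal.sum_le_sum _ _ fun b => by
          have := hs _ (mk_Iio_toType_ord_lt b)
          simpa using this
      _ = κ * κ := by simp
      _ = κ := Cardinal.mul_eq_self hr.1
  refine ⟨I, fun i => {a | a ∈ S ∧ ∀ h ∈ K,
    (∀ (x : κ.ord.ToType) (hx : x < i.1), h x = i.2 ⟨x, hx⟩) → F a (res h a) = true},
    hI, fun W hWS hW => ?_⟩
  obtain ⟨W', hW'W, f, hfK, hf, hst⟩ := hF W hWS hW
  obtain ⟨C, hC, hdis⟩ := not_isStationary_iff.1 hf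
  have hne : ∀ a ∈ C, a ∈ S → (F a (res f a) = true ↔ a ∈ W') := by
    intro a haC haS
    by_contra h
    exact Set.disjoint_left.1 hdis ⟨haS, h⟩ haC
  have hWC := stat_inter_club hr h0 hst hC
  have h4 : ∀ a, ∃ b, a ∈ {a | a ∈ W' ∧ RelCont K (F a) f} ∩ C → b < a ∧ ∀ h ∈ K,
      (∀ x < b, h x = f x) → F a (res h a) = F a (res f a) := by
    intro a
    by_cases ha : a ∈ {a | a ∈ W' ∧ RelCont K (F a) f} ∩ C
    · obtain ⟨b, h1, h2⟩ := ha.1.2
      exact ⟨b, fun _ => ⟨h1, h2⟩⟩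
    · exact ⟨a, fun h => absurd h ha⟩
  choose k hk using h4
  obtain ⟨b, hb⟩ := fodor hr h0 hWC k fun a ha => (hk a ha).1
  refine ⟨⟨b, fun x => f x⟩, ?_, ?_⟩
  · refine hb.mono ?_
    rintro a ⟨haW, hab⟩
    have haS : a ∈ S := hWS (hW'W haW.1.1)
    refine ⟨haS, fun h hhK hh => ?_⟩
    have h5 := (hk a haW).2 h hhK fun x hx => by
      rw [hab] at hx
      exact hh x hx
    rw [h5]
    exact (hne a haW.2 haS).2 haW.1.1
  · intro hst'
    obtain ⟨a, ⟨⟨haS, haT⟩, haW⟩, haC⟩ := (stat_inter_club hr h0 hst' hC).nonempty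
    have h7 : F a (res f a) = true := haT f hfK fun x hx => rfl
    exact haW (hW'W ((hne a haC haS).1 h7))

theorem guess_or_disc (hr : κ.IsRegular) (h0 : ℵ₀ < κ)
    (hs : ∀ x < κ, (2 : Cardinal.{u}) ^ x < κ) {S : Set κ.ord.ToType}
    (hS : IsStationary {a | a ∈ S ∧ Sing a})
    (K : Set (κ.ord.ToType → Bool)) (F : (a : κ.ord.ToType) → (Iio a → Bool) → κ.ord.ToType)
    (hF : ∀ a ∈ S, Sing a → ∀ f ∈ K, F a (res f a) < a) :
    ∃ W ⊆ S, IsStationary W ∧ ∃ g : κ.ord.ToType → κ.ord.ToType, ∀ f ∈ K,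
      IsStationary {a | a ∈ S ∧ F a (res f a) = g a} ∨
        ¬ IsStationary {a | a ∈ W ∧ RelCont K (F a) f} := by
  classical
  have hno := Cardinal.noMaxOrder hr.1
  have hcof := cof_ne hr h0
  -- fix the length of the ladders
  have h1 : ∀ a, ∃ b, (a ∈ S ∧ Sing a) → b < a ∧ ∃ c : Iio b → κ.ord.ToType, (∀ m, c m < a) ∧
      ∀ y < a, ∃ m, y < c m := by
    intro a
    by_cases ha : a ∈ S ∧ Sing a
    · obtain ⟨b, h1, h2⟩ := ha.2
      exact ⟨b, fun _ => ⟨h1, h2⟩⟩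
    · exact ⟨a, fun h => absurd h ha⟩
  choose h hh using h1
  obtain ⟨b0, hb0⟩ := fodor hr h0 hS h fun a ha => (hh a ha).1
  set R : Set κ.ord.ToType := {a | a ∈ {a | a ∈ S ∧ Sing a} ∧ h a = b0} with hR
  have hRS : ∀ a ∈ R, a ∈ S := fun a ha => ha.1.1
  have hlad : ∀ a, ∃ c : Iio b0 → κ.ord.ToType, a ∈ R → (∀ m, c m < a) ∧ ∀ y < a, ∃ m, y < c m := by
    intro a
    by_cases ha : a ∈ R
    · obtain ⟨h1, h2⟩ := hh a ha.1
      rw [ha.2] at h2
      obtain ⟨c, hc⟩ := h2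
      exact ⟨c, fun _ => hc⟩
    · exact ⟨fun _ => a, fun h => absurd h ha⟩
  choose η hη using hlad
  have hM : #(Iio b0) < κ := mk_Iio_toType_ord_lt b0
  have hcardM : ∀ {N : Type u}, #N < κ →
      Cardinal.lift.{u} #N < Cardinal.lift.{u} (Order.cof κ.ord.ToType) := by
    intro N hN
    rw [Cardinal.lift_lt, Ordinal.cof_toType, hr.cof_ord]
    exact hN
  have hκκ : κ * κ = κ := Cardinal.mul_eq_self hr.1
  -- the index set
  let I1 : Type u := Σ b : κ.ord.ToType, (Iio b → Bool)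
  let I2 : Type u := Σ b : κ.ord.ToType, (Iio b0 → Iio b)
  have hI1 : #I1 ≤ κ := by
    show #(Σ b : κ.ord.ToType, (Iio b → Bool)) ≤ κ
    rw [Cardinal.mk_sigma]
    calc Cardinal.sum (fun b : κ.ord.ToType => #(Iio b → Bool))
        ≤ Cardinal.sum (fun _ : κ.ord.ToType => κ) := Cardinal.sum_le_sum _ _ fun b => by
          have := hs _ (mk_Iio_toType_ord_lt b)
          simpa using this.le
      _ = κ * κ := by simp
      _ = κ := hκκ
  have hpow : ∀ b : κ.ord.ToType, #(Iio b0 → Iio b) < κ := by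
    intro b
    have := power_lt hr hs (mk_Iio_toType_ord_lt b) hM
    rwa [Cardinal.power_def] at this
  have hI2 : #I2 ≤ κ := by
    show #(Σ b : κ.ord.ToType, (Iio b0 → Iio b)) ≤ κ
    rw [Cardinal.mk_sigma]
    calc Cardinal.sum (fun b : κ.ord.ToType => #(Iio b0 → Iio b))
        ≤ Cardinal.sum (fun _ : κ.ord.ToType => κ) := Cardinal.sum_le_sum _ _ fun b => (hpow b).le
      _ = κ * κ := by simp
      _ = κ := hκκ
  let I : Type u := (I1 × κ.ord.ToType) × (Iio b0 × I2)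
  have hI : #I ≤ κ := by
    have h2 : #I = (#I1 * #κ.ord.ToType) * (#(Iio b0) * #I2) := by
      show #((I1 × κ.ord.ToType) × (Iio b0 × I2)) = _
      simp only [Cardinal.mk_prod, Cardinal.lift_id]
    rw [h2, Cardinal.mk_ord_toType]
    calc (#I1 * κ) * (#(Iio b0) * #I2) ≤ (κ * κ) * (κ * κ) :=
          mul_le_mul' (mul_le_mul' hI1 le_rfl) (mul_le_mul' hM.le hI2)
      _ = κ := by rw [hκκ, hκκ]
  let T : I → Set κ.ord.ToType := fun i => {a | a ∈ R ∧ (∀ h ∈ K,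
    (∀ (x : κ.ord.ToType) (hx : x < i.1.1.1), h x = i.1.1.2 ⟨x, hx⟩) →
      F a (res h a) = i.1.2) ∧ ∀ m < i.2.1, η a m = i.2.2.2 m}
  let X : I → Set κ.ord.ToType := fun i => {γ | IsStationary {a | a ∈ T i ∧ η a i.2.1 = γ}}
  have hm0 : Nonempty (Iio b0) := by
    obtain ⟨a, ha⟩ := (stat_inter_club hr h0 hb0 (isClub_Ioi hr b0)).nonempty
    obtain ⟨m, -⟩ := (hη a ha.1).2 b0 ha.2
    exact ⟨m⟩
  have hne : Nonempty κ.ord.ToType := ⟨b0⟩
  obtain ⟨d, hd⟩ := exists_colouring hr I (κ.ord.ToType × Bool) hI (by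
      have h2 : #(κ.ord.ToType × Bool) = κ * 2 := by simp
      rw [h2]
      calc κ * 2 ≤ κ * κ := mul_le_mul' le_rfl (Cardinal.ofNat_lt_aleph0.trans h0).le
        _ = κ := hκκ)
    (fun i => if ∀ δ, ∃ γ ∈ X i, δ < γ then X i else univ) (by
      intro i δ
      split_ifs with h2
      · exact h2 δ
      · obtain ⟨γ, hγ⟩ := exists_gt δ
        exact ⟨γ, trivial, hγ⟩)
  -- the types
  have hcov : R ⊆ ⋃ r : Iio b0 → Bool, {a | a ∈ R ∧ ∀ m, (d (η a m)).2 = r m} := by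
    intro a ha
    simp only [mem_iUnion]
    exact ⟨fun m => (d (η a m)).2, ha, fun _ => rfl⟩
  have h2 := hb0.mono hcov
  rw [isStationary_iUnion_iff hcof (hcardM (by simpa using hs _ hM))] at h2
  obtain ⟨r, hr'⟩ := h2
  set W : Set κ.ord.ToType := {a | a ∈ R ∧ ∀ m, (d (η a m)).2 = r m} with hW
  have wfM := wellFounded_lt (α := Iio b0)
  -- the first difference
  have hg : ∀ a, ∃ y : κ.ord.ToType, ∀ m, (d (η a m)).2 ≠ r m →
      (∀ m' < m, (d (η a m')).2 = r m') → y = (d (η a m)).1 := by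
    intro a
    by_cases ha : ∃ m, (d (η a m)).2 ≠ r m ∧ ∀ m' < m, (d (η a m')).2 = r m'
    · obtain ⟨m, hm1, hm2⟩ := ha
      refine ⟨(d (η a m)).1, fun n hn1 hn2 => ?_⟩
      rcases lt_trichotomy m n with h3 | h3 | h3
      · exact absurd (hn2 m h3) hm1
      · rw [h3]
      · exact absurd (hm2 n h3) hn1
    · exact ⟨b0, fun m hm1 hm2 => absurd ⟨m, hm1, hm2⟩ ha⟩
  choose g hg using hg
  refine ⟨W, fun a ha => hRS a ha.1, hr', g, fun f hfK => ?_⟩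
  by_contra hcon
  rw [not_or, not_not] at hcon
  obtain ⟨hcon1, hcon2⟩ := hcon
  obtain ⟨C, hC, hdis⟩ := not_isStationary_iff.1 hcon1
  have hneq : ∀ a ∈ C, a ∈ S → F a (res f a) ≠ g a := fun a haC haS h =>
    Set.disjoint_left.1 hdis ⟨haS, h⟩ haC
  have hWC : IsStationary ({a | a ∈ W ∧ RelCont K (F a) f} ∩ C) := stat_inter_club hr h0 hcon2 hC
  have h4 : ∀ a, ∃ b, a ∈ {a | a ∈ W ∧ RelCont K (F a) f} ∩ C → b < a ∧ ∀ h ∈ K,
      (∀ x < b, h x = f x) → F a (res h a) = F a (res f a) := by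
    intro a
    by_cases ha : a ∈ {a | a ∈ W ∧ RelCont K (F a) f} ∩ C
    · obtain ⟨b, h1, h2⟩ := ha.1.2
      exact ⟨b, fun _ => ⟨h1, h2⟩⟩
    · exact ⟨a, fun h => absurd h ha⟩
  choose k hk using h4
  obtain ⟨b, hb⟩ := fodor hr h0 hWC k fun a ha => (hk a ha).1
  obtain ⟨q, hq⟩ := fodor hr h0 hb (fun a => F a (res f a)) fun a ha =>
    hF a (hRS a ha.1.1.1.1) ha.1.1.1.1.1.2 f hfK
  set U : Set κ.ord.ToType := {a | a ∈ {a | a ∈ {a | a ∈ W ∧ RelCont K (F a) f} ∩ C ∧ k a = b} ∧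
    F a (res f a) = q} with hU
  have hUW : ∀ a ∈ U, a ∈ W := fun a ha => ha.1.1.1.1
  have hUR : ∀ a ∈ U, a ∈ R := fun a ha => (hUW a ha).1
  have hex : {m : Iio b0 | ∀ δ, ∃ γ, δ < γ ∧ IsStationary {a | a ∈ U ∧ η a m = γ}}.Nonempty := by
    obtain ⟨m, hm⟩ := exists_unbdd_fibre hr h0 hM η hq (fun a ha => (hη a (hUR a ha)).1)
      (fun a ha => (hη a (hUR a ha)).2)
    exact ⟨m, hm⟩
  obtain ⟨m, hm, hmin⟩ := wfM.has_min _ hex
  -- the earlier coordinates are bounded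
  have h5 : ∀ m' : Iio b0, ∃ δ, m' < m → ∀ γ, δ < γ → ¬ IsStationary {a | a ∈ U ∧ η a m' = γ} := by
    intro m'
    by_cases hm' : m' < m
    · have h6 : ¬ ∀ δ, ∃ γ, δ < γ ∧ IsStationary {a | a ∈ U ∧ η a m' = γ} := fun h => hmin m' h hm'
      push Not at h6
      obtain ⟨δ, hδ⟩ := h6
      exact ⟨δ, fun _ => hδ⟩
    · exact ⟨b0, fun h => absurd h hm'⟩
  choose δ hδ using h5
  obtain ⟨δ0, hδ0⟩ := exists_bound_fun δ (by rw [hr.cof_ord]; exact hM)
  have hbad : ¬ IsStationary (⋃ m' : Iio b0, {a | (a ∈ U ∧ m' < m) ∧ δ0 ≤ η a m'}) := by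
    rw [isStationary_iUnion_iff hcof (hcardM hM)]
    rintro ⟨m', hm'⟩
    obtain ⟨γ, hγ⟩ := fodor hr h0 hm' (fun a => η a m') fun a ha => (hη a (hUR a ha.1.1)).1 m'
    obtain ⟨a, ha⟩ := hγ.nonempty
    have h6 : δ m' < γ := (hδ0 m').trans_le (ha.2 ▸ ha.1.2)
    exact hδ m' ha.1.1.2 γ h6 (hγ.mono fun a ha => ⟨ha.1.1.1, ha.2⟩)
  have h6 : ∀ γ, IsStationary {a | a ∈ U ∧ η a m = γ} → ∃ σ : Iio b0 → Iio δ0,
      IsStationary {a | a ∈ U ∧ (∀ m' < m, η a m' = σ m') ∧ η a m = γ} := by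
    intro γ hγ
    have h7 := hγ.mono (t := (⋃ m' : Iio b0, {a | (a ∈ U ∧ m' < m) ∧ δ0 ≤ η a m'}) ∪
      ⋃ σ : Iio b0 → Iio δ0, {a | a ∈ U ∧ (∀ m' < m, η a m' = σ m') ∧ η a m = γ}) (by
        rintro a ⟨haU, haγ⟩
        by_cases hall : ∀ m' < m, η a m' < δ0
        · right
          simp only [mem_iUnion]
          obtain ⟨m1⟩ := hm0
          have hδne : ∃ z, z < δ0 := ⟨δ m1, hδ0 m1⟩
          obtain ⟨z, hz⟩ := hδne
          let σ0 : Iio b0 → Iio δ0 := fun m' => if h : η a m' < δ0 then ⟨η a m', h⟩ else ⟨z, hz⟩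
          have hσ0 : ∀ m', ∀ hm' : m' < m, σ0 m' = ⟨η a m', hall m' hm'⟩ :=
            fun m' hm' => dif_pos (hall m' hm')
          exact ⟨σ0, haU, fun m' hm' => by rw [hσ0 m' hm'], haγ⟩
        · left
          push Not at hall
          obtain ⟨m', h8, h9⟩ := hall
          simp only [mem_iUnion]
          exact ⟨m', ⟨haU, h8⟩, h9⟩)
    rw [isStationary_union_iff hcof] at h7
    have h8 := h7.resolve_left hbad
    rw [isStationary_iUnion_iff hcof (hcardM (hpow δ0))] at h8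
    exact h8
  have h7 : ∃ σ : Iio b0 → Iio δ0, ∀ δ', ∃ γ, δ' < γ ∧
      IsStationary {a | a ∈ U ∧ (∀ m' < m, η a m' = σ m') ∧ η a m = γ} := by
    by_contra hc
    push Not at hc
    choose ε hε using hc
    obtain ⟨ε0, hε0⟩ := exists_bound_fun ε (by rw [hr.cof_ord]; exact hpow δ0)
    obtain ⟨γ, hγ1, hγ2⟩ := hm ε0
    obtain ⟨σ, hσ⟩ := h6 γ hγ2
    exact hε σ γ ((hε0 σ).trans hγ1) hσ
  obtain ⟨σ, hσ⟩ := h7
  let i : I := ((⟨b, fun x => f x⟩, q), (m, ⟨δ0, σ⟩))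
  have hUT : ∀ a, a ∈ U ∧ (∀ m' < m, η a m' = σ m') → a ∈ T i := by
    rintro a ⟨haU, haσ⟩
    refine ⟨hUR a haU, fun h hhK hh => ?_, haσ⟩
    rw [(hk a haU.1.1).2 h hhK fun x hx => by
      rw [haU.1.2] at hx
      exact hh x hx]
    exact haU.2
  have hXi : ∀ δ, ∃ γ ∈ X i, δ < γ := by
    intro δ'
    obtain ⟨γ, h8, h9⟩ := hσ δ'
    exact ⟨γ, h9.mono fun a ha => ⟨hUT a ⟨ha.1, ha.2.1⟩, ha.2.2⟩, h8⟩
  obtain ⟨γ, hγ, hdγ⟩ := hd i (q, !r m)
  rw [if_pos hXi] at hγ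
  obtain ⟨γ1, -, hγ1⟩ := hσ b0
  obtain ⟨a1, ha1⟩ := hγ1.nonempty
  have hσr : ∀ m' < m, (d (σ m')).2 = r m' := by
    intro m' hm'
    rw [← ha1.2.1 m' hm']
    exact (hUW a1 ha1.1).2 m'
  obtain ⟨a, ⟨haT, haγ⟩, haC⟩ := (stat_inter_club hr h0 hγ hC).nonempty
  have h10 : F a (res f a) = q := haT.2.1 f hfK fun x hx => rfl
  have haγ' : η a m = γ := haγ
  have h11 : g a = (d (η a m)).1 := by
    refine hg a m ?_ ?_
    · rw [haγ', hdγ]
      cases r m <;> simp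
    · intro m' hm'
      have h12 : η a m' = σ m' := haT.2.2 m' hm'
      rw [h12]
      exact hσr m' hm'
  rw [haγ', hdγ] at h11
  exact hneq a haC (hRS a haT.1) (h10.trans h11.symm)

end Pool.Agent.H7.WD
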