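import Pool.Agent.H7.WD.Dense

set_option autoImplicit false

/-!
# The singular points form a stationary set
-/

open Cardinal Ordinal Set Order

universe u

namespace Pool.Agent.H7.WD

variable {κ : Cardinal.{u}}

theorem stat_sing (hr : κ.IsRegular) (h0 : ℵ₀ < κ) :
    IsStationary {a : κ.ord.ToType | Sing a} := by
  classical
  have hno := Cardinal.noMaxOrder hr.1
  intro C hC
  have hcnt : ∀ s : ℕ → κ.ord.ToType, ∃ b, ∀ n, s n < b := by
    intro s
    obtain ⟨b, hb⟩ := exists_bound (range s) (by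
      rw [hr.cof_ord]
      exact lt_of_le_of_lt (by simpa using mk_range_le_lift (f := s)) h0)
    exact ⟨b, fun n => hb _ ⟨n, rfl⟩⟩
  have hinf : ℵ₀ ≤ #κ.ord.ToType := by simpa using hr.1
  have : Infinite κ.ord.ToType := Cardinal.infinite_iff.2 hinf
  obtain ⟨b, hb⟩ := hcnt (Infinite.natEmbedding κ.ord.ToType)
  let q : Iio b → ℕ := fun x =>
    if h : ∃ n, Infinite.natEmbedding κ.ord.ToType n = x then h.choose else 0
  have hq : ∀ n, ∃ x, q x = n := by
    intro n
    refine ⟨⟨Infinite.natEmbedding κ.ord.ToType n, hb n⟩, ?_⟩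
    have h : ∃ m, Infinite.natEmbedding κ.ord.ToType m = Infinite.natEmbedding κ.ord.ToType n :=
      ⟨n, rfl⟩
    show (if h : ∃ m, Infinite.natEmbedding κ.ord.ToType m =
      Infinite.natEmbedding κ.ord.ToType n then h.choose else 0) = n
    rw [dif_pos h]
    exact (Infinite.natEmbedding κ.ord.ToType).injective h.choose_spec
  have hn : ∀ z : κ.ord.ToType, ∃ y ∈ C, z < y := by
    intro z
    obtain ⟨w, hw⟩ := exists_gt z
    obtain ⟨y, hy, hwy⟩ := hC.isCofinal w
    exact ⟨y, hy, hw.trans_le hwy⟩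
  choose g hg1 hg2 using hn
  let s : ℕ → κ.ord.ToType := fun n => g^[n + 1] b
  have hs : ∀ n, s (n + 1) = g (s n) := fun n => Function.iterate_succ_apply' g (n + 1) b
  have hs0 : s 0 = g b := rfl
  have hsC : ∀ n, s n ∈ C := by
    intro n
    cases n with
    | zero => exact hg1 b
    | succ n => rw [hs]; exact hg1 _
  obtain ⟨b0, hb0⟩ := hcnt s
  have hne : {y : κ.ord.ToType | ∀ n, s n ≤ y}.Nonempty := ⟨b0, fun n => (hb0 n).le⟩
  obtain ⟨a, ha, hmin⟩ := WellFounded.has_min (wellFounded_lt (α := κ.ord.ToType)) _ hne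
  have hlt : ∀ y < a, ∃ n, y < s n := by
    intro y hy
    by_contra hc
    push Not at hc
    exact hmin y hc hy
  have hsa : ∀ n, s n < a := by
    intro n
    have h1 := ha (n + 1)
    rw [hs] at h1
    exact (hg2 _).trans_le h1
  refine ⟨a, ⟨b, ((hg2 b).trans_le (hs0 ▸ ha 0)), fun x => s (q x), fun m => hsa _, fun y hy => ?_⟩,
    ?_⟩
  · obtain ⟨n, hn⟩ := hlt y hy
    obtain ⟨x, hx⟩ := hq n
    exact ⟨x, by beta_reduce; rw [hx]; exact hn⟩
  · refine hC.isLUB_mem (t := range s) ?_ ⟨s 0, 0, rfl⟩ ⟨?_, ?_⟩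
    · rintro _ ⟨n, rfl⟩
      exact hsC n
    · rintro _ ⟨n, rfl⟩
      exact ha n
    · intro w hw
      by_contra hc
      obtain ⟨n, hn⟩ := hlt w (lt_of_not_ge hc)
      exact absurd (hw ⟨n, rfl⟩) (not_le.2 hn)

theorem DenseNS.mono {S S' : Set κ.ord.ToType} (h : DenseNS S) (hS : S' ⊆ S) : DenseNS S' := by
  obtain ⟨I, T, hI, hT⟩ := h
  exact ⟨I, T, hI, fun W hW hst => hT W (hW.trans hS) hst⟩

end Pool.Agent.H7.WD
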